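import Pool.Agent.H8Z.BTE.Iface

/-! Counting cells (`CountS`) and uniformly short bases (`FamS`). -/

set_option autoImplicit false
set_option linter.unusedSectionVars false
set_option linter.unusedVariables false

namespace Pool.Agent.H793Z.BteF

open Pool.Agent.H8Z.BTE

section count

variable {α E V : Type} [DecidableEq α] (C : Cfg α E V)

def Sq : Set (E × ℤ) := {y | y.1 ∈ C.R ∧ C.k1 y.1 ≤ y.2 ∧ y.2 < C.k2 y.1}

lemma Sq_finite [Finite E] : (Sq C).Finite := by
  have : Sq C ⊆ ⋃ e : E, (fun i => (e, i)) '' Set.Ico (C.k1 e) (C.k2 e) := by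
    rintro ⟨e, i⟩ hp
    exact Set.mem_iUnion.2 ⟨e, i, ⟨hp.2.1, hp.2.2⟩, rfl⟩
  exact (Set.finite_iUnion fun c => (Set.finite_Ico _ _).image _).subset this

def cell (y : E × ℤ) (s : Bool) : V × ℤ :=
  (C.cp y.1 s, min (C.pos y.1 s y.2) (C.pos y.1 s (y.2 + 1)))

variable {C}

lemma cell_spec {V0 : FreeGroup α} {L : ℤ} (h : C.Geo V0 L) {y : E × ℤ} (hy : y ∈ Sq C)
    (s : Bool) : cell C y s ∈ C.cells ∧ C.cpos y.1 s y.2 = 2 * (cell C y s).2 + 1 := by
  obtain ⟨h1, h2, h3⟩ := hy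
  have a1 := h.rng y.1 h1 s y.2 h2 h3.le
  have a2 := h.rng y.1 h1 s (y.2 + 1) (by omega) (by omega)
  simp only [Cfg.cells, cell, Set.mem_ofPred_eq]
  rcases h.pos_cases h1 s with ⟨-, b1, b2⟩ | ⟨-, b1, b2⟩
  · rw [b1] at a1 a2
    rw [b1, b1, b2]
    omega
  · rw [b1] at a1 a2
    rw [b1, b1, b2]
    omega

lemma sq_le_cells [Finite E] [Finite V] {V0 : FreeGroup α} {L : ℤ} (h : C.Inv V0 L) :
    Nat.card (Sq C) ≤ Nat.card C.cells := by
  classical
  have := (Sq_finite C).to_subtype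
  have := (Cfg.cells_finite (C := C)).to_subtype
  let _ := Fintype.ofFinite (Sq C)
  let _ := Fintype.ofFinite C.cells
  let Φ : (C.cells → ℚ) →ₗ[ℚ] (Sq C → ℚ) :=
    LinearMap.funLeft ℚ ℚ (fun y : Sq C => (⟨cell C y true, (cell_spec h.geo y.2 true).1⟩ : C.cells)) -
    LinearMap.funLeft ℚ ℚ (fun y : Sq C => (⟨cell C y false, (cell_spec h.geo y.2 false).1⟩ : C.cells))
  have hs : Function.Surjective Φ := by
    intro q
    obtain ⟨g, hg⟩ := h.tr (fun e k => if hy : (e, k) ∈ Sq C then q ⟨_, hy⟩ else 0)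
    refine ⟨fun p => g p.1.1 (2 * p.1.2 + 1), ?_⟩
    funext y
    have := hg y.1.1 y.2.1 y.1.2 y.2.2.1 y.2.2.2
    rw [dif_pos y.2, (cell_spec h.geo y.2 true).2, (cell_spec h.geo y.2 false).2] at this
    exact this
  have := LinearMap.finrank_le_finrank_of_surjective hs
  simpa [Nat.card_eq_fintype_card] using this

theorem countS (α : Type) [DecidableEq α] : CountS α := by
  classical
  intro E V _ _ C V0 L h hH c
  have hL : 0 ≤ L := by
    have := h.geo.lh C.c0
    rw [h.geo.lo0, h.geo.hi0] at this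
    exact this
  set s : Finset ((E × ℤ) × Bool) := (Sq_finite C).toFinset ×ˢ Finset.univ with hs
  set t : Finset (V × ℤ) := (Cfg.cells_finite (C := C)).toFinset with ht
  set t' : Finset (V × ℤ) := t.filter (fun p => p.1 ≠ C.c0) with ht'
  have h1 : s.card ≤ 2 * t.card := by
    have := sq_le_cells h
    rw [Nat.card_coe_set_eq, Nat.card_coe_set_eq, Set.ncard_eq_toFinset_card _ (Sq_finite C),
      Set.ncard_eq_toFinset_card _ (Cfg.cells_finite (C := C)), ← ht] at this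
    rw [hs, Finset.card_product, Finset.card_univ, Fintype.card_bool]
    omega
  have h2 : s.card = ∑ p ∈ t, (s.filter (fun z => cell C z.1 z.2 = p)).card := by
    apply Finset.card_eq_sum_card_fiberwise
    intro z hz
    simp only [hs, Finset.coe_product, Set.Finite.coe_toFinset, Set.mem_prod] at hz
    simp only [ht, Set.Finite.coe_toFinset]
    exact (cell_spec h.geo hz.1 z.2).1
  have h3 : ∀ p ∈ t', 3 ≤ (s.filter (fun z => cell C z.1 z.2 = p)).card := by
    intro p hp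
    simp only [ht', ht, Finset.mem_filter, Set.Finite.mem_toFinset] at hp
    refine (hH p.1 p.2 hp.2 hp.1.1 hp.1.2).trans ?_
    unfold Cfg.wt
    rw [← Set.ncard_coe_finset]
    refine le_trans (Set.ncard_le_ncard ?_ ((Finset.finite_toSet _).image
      (fun z : (E × ℤ) × Bool => (z.1.1, z.2)))) (Set.ncard_image_le (Finset.finite_toSet _))
    rintro ⟨e, b⟩ ⟨a1, a2, k, a3, a4, a5⟩
    have hy : (e, k) ∈ Sq C := ⟨a1, a3, a4⟩
    refine ⟨((e, k), b), ?_, rfl⟩
    simp only [hs, Finset.coe_filter, Finset.mem_product, Set.Finite.mem_toFinset,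
      Finset.mem_univ, and_true, Set.mem_ofPred_eq]
    refine ⟨hy, Prod.ext a2 ?_⟩
    have := (cell_spec h.geo hy b).2
    simp only at this a5
    omega
  have h4 : 3 * t'.card ≤ s.card := by
    rw [h2]
    calc 3 * t'.card = ∑ p ∈ t', 3 := by simp [mul_comm]
      _ ≤ ∑ p ∈ t', (s.filter (fun z => cell C z.1 z.2 = p)).card := Finset.sum_le_sum h3
      _ ≤ _ := Finset.sum_le_sum_of_subset (Finset.filter_subset _ _)
  have h5 : t.card ≤ t'.card + L.toNat := by
    have : t ⊆ t' ∪ (Finset.Ico (0 : ℤ) L).image (fun i => (C.c0, i)) := by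
      intro p hp
      by_cases hc : p.1 = C.c0
      · refine Finset.mem_union_right _ (Finset.mem_image.2 ⟨p.2, ?_, Prod.ext hc.symm rfl⟩)
        simp only [ht, Set.Finite.mem_toFinset, Cfg.cells, Set.mem_ofPred_eq, hc, h.geo.lo0,
          h.geo.hi0] at hp
        exact Finset.mem_Ico.2 hp
      · exact Finset.mem_union_left _ (Finset.mem_filter.2 ⟨hp, hc⟩)
    refine (Finset.card_le_card this).trans ((Finset.card_union_le _ _).trans ?_)
    have := Finset.card_image_le (s := Finset.Ico (0 : ℤ) L) (f := fun i => (C.c0, i))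
    rw [Int.card_Ico] at this
    simp only [sub_zero] at this
    omega
  by_cases hc : c = C.c0
  · rw [hc, h.geo.lo0, h.geo.hi0]; omega
  · have h6 : (C.hi c - C.lo c).toNat ≤ t'.card := by
      rw [← Int.card_Ico, ← Finset.card_image_of_injective (Finset.Ico (C.lo c) (C.hi c))
        (f := fun i => (c, i)) (fun a b e => (Prod.ext_iff.1 e).2)]
      apply Finset.card_le_card
      intro p hp
      obtain ⟨i, hi, rfl⟩ := Finset.mem_image.1 hp
      simp only [ht', ht, Finset.mem_filter, Set.Finite.mem_toFinset]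
      exact ⟨Finset.mem_Ico.1 hi, hc⟩
    omega

end count

section fam

lemma ev_map {E E' Q : Type} [Group Q] (f : E' → Q) (g : E → E') (l : List (E × Bool)) :
    ev f (l.map (Prod.map g id)) = ev (fun e => f (g e)) l := by
  induction l with
  | nil => simp
  | cons x l ih =>
    rw [List.map_cons, ev_cons, ev_cons, ih]
    rfl

lemma ev_inv {E Q : Type} [Group Q] (f : E → Q) (l : List (E × Bool)) :
    ∃ m, ev f m = (ev f l)⁻¹ := by
  induction l with
  | nil => exact ⟨[], by simp⟩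
  | cons x l ih =>
    obtain ⟨m, hm⟩ := ih
    obtain ⟨e, s⟩ := x
    refine ⟨m ++ [(e, !s)], ?_⟩
    rw [ev_append, hm, ev_cons, ev_cons, ev_nil, lv_not]
    group

lemma ev_surj {E Q : Type} [Group Q] (f : E → Q) (h : Subgroup.closure (Set.range f) = ⊤)
    (a : Q) : ∃ l, ev f l = a := by
  have ha : a ∈ Subgroup.closure (Set.range f) := h ▸ Subgroup.mem_top a
  induction ha using Subgroup.closure_induction with
  | mem x hx =>
    obtain ⟨e, rfl⟩ := hx
    exact ⟨[(e, true)], by simp⟩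
  | one => exact ⟨[], rfl⟩
  | mul x y _ _ hx hy =>
    obtain ⟨l, rfl⟩ := hx
    obtain ⟨m, rfl⟩ := hy
    exact ⟨l ++ m, ev_append _ _ _⟩
  | inv x _ hx =>
    obtain ⟨l, rfl⟩ := hx
    exact ev_inv f l

lemma ev_basis {ι A : Type} [Group A] (b : FreeGroupBasis ι A) (a : A) : ∃ l, ev b l = a := by
  obtain ⟨w, rfl⟩ := b.repr.symm.surjective a
  induction w using FreeGroup.induction_on with
  | C1 => exact ⟨[], by simp⟩
  | of x => exact ⟨[(x, true)], by rw [ev_cons, ev_nil, mul_one]; rfl⟩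
  | inv_of x hx =>
    obtain ⟨l, hl⟩ := hx
    obtain ⟨m, hm⟩ := ev_inv b l
    exact ⟨m, by rw [hm, hl, map_inv]⟩
  | mul x y hx hy =>
    obtain ⟨l, hl⟩ := hx
    obtain ⟨m, hm⟩ := hy
    exact ⟨l ++ m, by rw [ev_append, hl, hm, map_mul]⟩

/-- the hypotheses on a presentation -/
def Hyp {S : Type} (Rel : Set (List (S × Bool))) (A : Type) [Group A] (η : S → A) : Prop :=
  (∀ l ∈ Rel, ev η l = 1) ∧ Subgroup.closure (Set.range η) = ⊤ ∧
    (∀ (Q : Type) [Group Q] (f : S → Q), (∀ l ∈ Rel, ev f l = 1) →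
      ∃ Φ : A →* Q, ∀ s, Φ (η s) = f s)

/-- the conclusion -/
def Con {S : Type} (A : Type) [Group A] (η : S → A) (κ : ℕ) : Prop :=
  ∃ (ι : Type) (b : FreeGroupBasis ι A), ∀ s, ∃ m : List (ι × Bool), ev b m = η s ∧
    m.length ≤ κ ∧ ∀ x ∈ m, ∃ l : List (S × Bool), ev η l = b x.1 ∧ l.length ≤ κ

lemma Con.mono {S A : Type} [Group A] {η : S → A} {κ κ' : ℕ} (h : Con A η κ) (hk : κ ≤ κ') :
    Con A η κ' := by
  obtain ⟨ι, b, h⟩ := h
  refine ⟨ι, b, fun s => ?_⟩
  obtain ⟨m, h1, h2, h3⟩ := h s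
  refine ⟨m, h1, h2.trans hk, fun x hx => ?_⟩
  obtain ⟨l, h4, h5⟩ := h3 x hx
  exact ⟨l, h4, h5.trans hk⟩

lemma core {S : Type} [Finite S] (Rel : Set (List (S × Bool))) :
    ∃ κ : ℕ, ∀ (A : Type) [Group A] [IsFreeGroup A] (η : S → A), Hyp Rel A η → Con A η κ := by
  by_cases hex : ∃ (A : Type) (_ : Group A) (_ : IsFreeGroup A) (η : S → A), Hyp Rel A η
  swap
  · exact ⟨0, fun A _ _ η h => (hex ⟨A, _, ‹_›, η, h⟩).elim⟩
  obtain ⟨A0, _, _, η0, h0⟩ := hex
  let b0 := IsFreeGroup.basis A0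
  choose m hm using fun s => ev_basis b0 (η0 s)
  choose l hl using fun i => ev_surj η0 h0.2.1 (b0 i)
  obtain ⟨κ, hκ⟩ := (Set.finite_range
    (fun s => (m s).length + ((m s).map (fun x => (l x.1).length)).sum)).bddAbove
  refine ⟨κ, fun A _ _ η h => ?_⟩
  obtain ⟨Φ, hΦ⟩ := h0.2.2 A η h.1
  obtain ⟨Ψ, hΨ⟩ := h.2.2 A0 η0 h0.1
  have e1 : Ψ.comp Φ = MonoidHom.id A0 := by
    apply MonoidHom.eq_of_eqOn_dense h0.2.1
    rintro _ ⟨s, rfl⟩
    simp [hΦ, hΨ]
  have e2 : Φ.comp Ψ = MonoidHom.id A := by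
    apply MonoidHom.eq_of_eqOn_dense h.2.1
    rintro _ ⟨s, rfl⟩
    simp [hΦ, hΨ]
  let e : A0 ≃* A := MonoidHom.toMulEquiv Φ Ψ e1 e2
  have hb : ∀ i, (b0.map e) i = Φ (b0 i) := fun i => rfl
  refine ⟨_, b0.map e, fun s => ⟨m s, ?_, ?_, fun x hx => ⟨l x.1, ?_, ?_⟩⟩⟩
  · rw [← hΦ, ← hm, map_ev]; rfl
  · have := hκ ⟨s, rfl⟩
    simp only at this
    omega
  · rw [hb, ← hl, map_ev]
    simp only [hΦ]
  · have := hκ ⟨s, rfl⟩
    have h2 : (l x.1).length ≤ ((m s).map (fun x => (l x.1).length)).sum :=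
      List.single_le_sum (fun _ _ => Nat.zero_le _) _ (List.mem_map.2 ⟨x, hx, rfl⟩)
    simp only at this
    omega

theorem famS : FamS := by
  intro B
  have hfin : ∀ m : ℕ, Finite {l : List (Fin m × Bool) // l.length ≤ B} :=
    fun m => (List.finite_length_le (Fin m × Bool) B).to_subtype
  choose k hk using fun y : (Σ m : Fin (B + 1), Set {l : List (Fin m × Bool) // l.length ≤ B}) =>
    core (S := Fin y.1) (Subtype.val '' y.2)
  obtain ⟨κ, hκ⟩ := (Set.finite_range k).bddAbove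
  refine ⟨κ, fun S _ Rel A _ _ η hS hR h1 h2 h3 => ?_⟩
  let e : S ≃ Fin (Nat.card S) := Finite.equivFin S
  let y : (Σ m : Fin (B + 1), Set {l : List (Fin m × Bool) // l.length ≤ B}) :=
    ⟨⟨Nat.card S, by omega⟩, {l | l.1.map (Prod.map e.symm id) ∈ Rel}⟩
  have hy : Hyp (S := Fin (Nat.card S)) (Subtype.val '' y.2) A (fun i => η (e.symm i)) := by
    refine ⟨?_, ?_, ?_⟩
    · rintro _ ⟨l, hl, rfl⟩
      rw [← ev_map η e.symm]
      exact h1 _ hl
    · rw [← h2]
      congr 1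
      exact e.symm.surjective.range_comp η
    · intro Q _ f hf
      obtain ⟨Φ, hΦ⟩ := h3 Q (fun s => f (e s)) (fun l hl => by
        rw [← ev_map f e]
        apply hf
        refine ⟨⟨l.map (Prod.map e id), by simpa using hR l hl⟩, ?_, rfl⟩
        change (l.map (Prod.map e id)).map (Prod.map e.symm id) ∈ Rel
        have : (Prod.map e.symm id ∘ Prod.map e id : S × Bool → S × Bool) = id := by
          funext x; simp [Prod.map]
        rw [List.map_map, this, List.map_id]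
        exact hl)
      exact ⟨Φ, fun i => by rw [hΦ]; simp⟩
  obtain ⟨ι, b, hb⟩ := (hk y A _ hy).mono (hκ ⟨y, rfl⟩)
  refine ⟨ι, b, fun s => ?_⟩
  obtain ⟨m, a1, a2, a3⟩ := hb (e s)
  refine ⟨m, by simpa using a1, a2, fun x hx => ?_⟩
  obtain ⟨l, a4, a5⟩ := a3 x hx
  exact ⟨l.map (Prod.map e.symm id), by rw [ev_map]; exact a4, by simpa using a5⟩

end fam

end Pool.Agent.H793Z.BteF
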