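import Pool.Agent.H28Z.DaDefs

open Metric Set Filter Topology

noncomputable section

namespace Pool.Agent.H28Z.Da

lemma gelAux_char {A : Type*} [NormedRing A] [NormedAlgebra ℂ A] [CompleteSpace A]
    (h1 : ‖(1 : A)‖ ≤ 1) (S : Set A) (hS : ∀ a ∈ S, ∀ b ∈ S, a * b = b * a) (a₀ : A) (ha : a₀ ∈ S)
    (l : ℂ) (hl : l ∈ spectrum ℂ a₀) :
    ∃ (C : Subalgebra ℂ A) (χ : C →ₐ[ℂ] ℂ) (h : ∀ a ∈ S, a ∈ C),
      χ ⟨a₀, h a₀ ha⟩ = l ∧ ∀ x : C, ‖χ x‖ ≤ ‖(x : A)‖ := by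
  let C : Subalgebra ℂ A := Subalgebra.centralizer ℂ (Set.centralizer S)
  have hSC : ∀ a ∈ S, a ∈ C := fun a ha b hb => (hb a ha).symm
  have hC : ∀ x ∈ C, x ∈ Set.centralizer S := fun x hx a ha => hx a (fun b hb => hS b hb a ha)
  let _ : NormedCommRing C :=
    { (inferInstance : NormedRing C) with
      mul_comm := fun x y => Subtype.ext (y.2 x (hC x x.2)) }
  have hcl : IsClosed (C : Set A) := Set.isClosed_centralizer _
  have : CompleteSpace C := hcl.completeSpace_coe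
  have hl' : l ∈ spectrum ℂ (⟨a₀, hSC a₀ ha⟩ : C) :=
    AlgHom.spectrum_apply_subset C.val (⟨a₀, hSC a₀ ha⟩ : C) hl
  obtain ⟨f, hf⟩ := WeakDual.CharacterSpace.mem_spectrum_iff_exists.mp hl'
  refine ⟨C, WeakDual.CharacterSpace.toAlgHom f, hSC, hf, fun x => ?_⟩
  have := AlgHom.norm_apply_le_self_mul_norm_one f x
  refine this.trans ?_
  exact mul_le_of_le_one_right (norm_nonneg _) h1

lemma gelAux_slope (h : ℂ → ℂ) (R M : ℝ) (hR : 0 < R) (hd : DifferentiableOn ℂ h (ball 0 R))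
    (hM : ∀ a ∈ ball (0 : ℂ) R, ‖h a‖ ≤ M) (a b : ℂ) (ha : a ∈ ball (0 : ℂ) R)
    (hb : b ∈ ball (0 : ℂ) R) (ha0 : a ≠ 0) (hb0 : b ≠ 0) :
    ‖a⁻¹ * (h a - h 0) - b⁻¹ * (h b - h 0)‖ ≤ 4 / R ^ 2 * (‖a‖ + ‖b‖) * M := by
  have h0 : (0 : ℂ) ∈ ball (0 : ℂ) R := mem_ball_self hR
  have m1 : MapsTo h (ball 0 R) (closedBall (h 0) (2 * M)) := fun z hz => by
    rw [mem_closedBall, dist_eq_norm]
    refine (norm_sub_le _ _).trans ?_
    linarith [hM z hz, hM 0 h0]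
  have b1 : ∀ z ∈ ball (0 : ℂ) R, ‖dslope h 0 z‖ ≤ 2 * M / R := fun z hz =>
    Complex.norm_dslope_le_div_of_mapsTo_ball hd m1 hz
  have d2 : DifferentiableOn ℂ (dslope h 0) (ball 0 R) :=
    (Complex.differentiableOn_dslope (ball_mem_nhds _ hR)).mpr hd
  have m2 : MapsTo (dslope h 0) (ball 0 R) (closedBall (dslope h 0 0) (4 * M / R)) := fun z hz => by
    rw [mem_closedBall, dist_eq_norm]
    refine (norm_sub_le _ _).trans ?_
    have := b1 z hz
    have := b1 0 h0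
    have : 4 * M / R = 2 * M / R + 2 * M / R := by ring
    linarith
  have e1 := Complex.dist_le_div_mul_dist_of_mapsTo_ball d2 m2 ha
  have e2 := Complex.dist_le_div_mul_dist_of_mapsTo_ball d2 m2 hb
  have s1 : ∀ z : ℂ, z ≠ 0 → z⁻¹ * (h z - h 0) = dslope h 0 z := fun z hz => by
    rw [dslope_of_ne _ hz, slope_def_module]; simp
  rw [s1 a ha0, s1 b hb0, ← dist_eq_norm]
  refine (dist_triangle_right _ _ (dslope h 0 0)).trans ?_
  rw [dist_zero_right] at e1 e2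
  have : 4 / R ^ 2 * (‖a‖ + ‖b‖) * M = 4 * M / R / R * ‖a‖ + 4 * M / R / R * ‖b‖ := by
    field_simp
  linarith

lemma gelAux_lim (φ : ℂ → ℂ) (R C : ℝ) (hR : 0 < R) (hC : 0 < C)
    (h : ∀ a b : ℂ, a ∈ ball (0 : ℂ) R → b ∈ ball (0 : ℂ) R → a ≠ 0 → b ≠ 0 →
      ‖φ a - φ b‖ ≤ C * (‖a‖ + ‖b‖)) : ∃ L, Tendsto φ (𝓝[≠] 0) (𝓝 L) := by
  rw [← cauchy_map_iff_exists_tendsto, Metric.cauchy_iff]
  refine ⟨inferInstance, fun ε hε => ?_⟩
  set δ := min R (ε / (2 * C)) with hδ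
  have hδ0 : 0 < δ := lt_min hR (by positivity)
  refine ⟨φ '' (ball 0 δ ∩ {0}ᶜ), image_mem_map
    (inter_mem (mem_nhdsWithin_of_mem_nhds (ball_mem_nhds _ hδ0)) self_mem_nhdsWithin), ?_⟩
  rintro _ ⟨a, ⟨ha, ha0⟩, rfl⟩ _ ⟨b, ⟨hb, hb0⟩, rfl⟩
  rw [dist_eq_norm]
  refine (h a b (ball_subset_ball (min_le_left _ _) ha) (ball_subset_ball (min_le_left _ _) hb)
    ha0 hb0).trans_lt ?_
  rw [mem_ball_zero_iff] at ha hb
  have h1 : ‖a‖ < ε / (2 * C) := ha.trans_le (min_le_right _ _)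
  have h2 : ‖b‖ < ε / (2 * C) := hb.trans_le (min_le_right _ _)
  calc C * (‖a‖ + ‖b‖) < C * (ε / (2 * C) + ε / (2 * C)) := by gcongr
    _ = ε := by field_simp; ring

lemma gelAux_exp (U : Set ℂ) (hU : IsOpen U) (hc : IsPreconnected U) (h1 : (1 : ℂ) ∈ U)
    (hadd : ∀ t ∈ U, ∀ t' ∈ U, t + t' ∈ U) (f : ℂ → ℂ) (hd : DifferentiableOn ℂ f U)
    (hm : ∀ t ∈ U, ∀ t' ∈ U, f (t + t') = f t * f t') (hne : f 1 ≠ 0) :
    ∃ c : ℂ, ∀ t ∈ U, f t = Complex.exp (c * t) := by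
  have hda : ∀ t ∈ U, HasDerivAt f (deriv f t) t := fun t ht =>
    (hd.differentiableAt (hU.mem_nhds ht)).hasDerivAt
  have key : ∀ t ∈ U, ∀ t' ∈ U, deriv f (t + t') = deriv f t * f t' := by
    intro t ht t' ht'
    have a1 : HasDerivAt (fun x => f (x + t')) (deriv f (t + t')) t :=
      (hda _ (hadd t ht t' ht')).comp_add_const t t'
    have a2 : HasDerivAt (fun x => f x * f t') (deriv f t * f t') t := (hda t ht).mul_const _
    have a3 : (fun x => f (x + t')) =ᶠ[𝓝 t] (fun x => f x * f t') := by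
      filter_upwards [hU.mem_nhds ht] with x hx using hm x hx t' ht'
    exact a1.unique (a2.congr_of_eventuallyEq a3)
  set c := deriv f 1 / f 1 with hcdef
  have hder : ∀ t ∈ U, deriv f t = c * f t := by
    intro t ht
    have a1 := key t ht 1 h1
    have a2 := key 1 h1 t ht
    rw [add_comm] at a2
    rw [hcdef]; field_simp
    linear_combination a2 - a1
  have hF : ∀ t ∈ U, HasDerivAt (fun x => f x * Complex.exp (-(c * x))) 0 t := by
    intro t ht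
    have a1 : HasDerivAt (fun x : ℂ => Complex.exp (-(c * x))) (Complex.exp (-(c * t)) * -(c * 1)) t :=
      (((hasDerivAt_id t).const_mul c).neg).cexp
    have := (hda t ht).mul a1
    rw [hder t ht] at this
    have e0 : c * f t * Complex.exp (-(c * t)) + f t * (Complex.exp (-(c * t)) * -(c * 1)) = 0 := by
      ring
    rw [e0] at this
    exact this
  obtain ⟨κ, hκ⟩ := hU.exists_is_const_of_deriv_eq_zero hc
    (f := fun x => f x * Complex.exp (-(c * x)))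
    (fun t ht => (hF t ht).differentiableAt.differentiableWithinAt) (fun t ht => (hF t ht).deriv)
  have hf : ∀ t ∈ U, f t = κ * Complex.exp (c * t) := by
    intro t ht
    rw [← hκ t ht, mul_assoc, ← Complex.exp_add]; simp
  have hκ0 : κ ≠ 0 := by
    rintro rfl
    exact hne (by simpa using hf 1 h1)
  have hκ1 : κ = 1 := by
    have a1 := hm 1 h1 1 h1
    rw [hf _ (hadd 1 h1 1 h1), hf 1 h1, mul_add, Complex.exp_add] at a1
    have a2 := Complex.exp_ne_zero (c * 1)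
    apply mul_left_cancel₀ (mul_ne_zero hκ0 (mul_ne_zero a2 a2))
    linear_combination -a1
  exact ⟨c, fun t ht => by rw [hf t ht, hκ1, one_mul]⟩

variable {X : Type*} [NormedAddCommGroup X] [NormedSpace ℂ X] [CompleteSpace X] {Ω : Set ℂ} {μ : ℝ}
  {e : X →ₗ[ℂ] (ℂ → ℂ)} {tr : ℂ → X →L[ℂ] X}

theorem gelfand (hD : Dom Ω μ) (hX : TrSetup Ω e tr) (l : ℂ) (hl : l ∈ spectrum ℂ (tr 1)) :
    l = 0 ∨ ∃ s ∈ Dual Ω, l = Complex.exp (-s) := by
  classical
  have hμ := hD.pos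
  have hext : ∀ x y : X, (∀ z ∈ Ω, e x z = e y z) → x = y := by
    intro x y h
    have := hX.norm_le (x - y) 0 le_rfl (fun z hz => by simp [h z hz])
    exact sub_eq_zero.mp (norm_le_zero_iff.mp this)
  have hadd : ∀ t ∈ Adm Ω, ∀ t' ∈ Adm Ω, t + t' ∈ Adm Ω := fun t ht t' ht' z hz => by
    rw [← add_assoc]; exact ht' _ (ht z hz)
  have hmul : ∀ t ∈ Adm Ω, ∀ t' ∈ Adm Ω, tr (t + t') = tr t * tr t' := by
    intro t ht t' ht'
    ext x
    apply hext
    intro z hz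
    rw [hX.tr_eq _ (hadd t ht t' ht') x z hz, mul_apply_eq_comp, hX.tr_eq _ ht _ z hz,
      hX.tr_eq _ ht' _ _ (ht z hz), add_assoc]
  have hnorm : ∀ t ∈ Adm Ω, ‖tr t‖ ≤ 1 := by
    intro t ht
    refine ContinuousLinearMap.opNorm_le_bound _ zero_le_one fun x => ?_
    rw [one_mul]
    refine hX.norm_le _ _ (norm_nonneg _) fun z hz => ?_
    rw [hX.tr_eq _ ht x z hz]
    exact hX.le x _ (ht z hz)
  set U : Set ℂ := {τ | |τ.im| < μ * τ.re} with hU
  have hUA : ∀ t ∈ U, t ∈ Adm Ω := fun t ht => hD.cone (le_of_lt ht : |t.im| ≤ μ * t.re)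
  have hUo : IsOpen U := isOpen_lt (by fun_prop) (by fun_prop)
  have hU1 : (1 : ℂ) ∈ U := by simpa [hU] using hμ
  have hUadd : ∀ t ∈ U, ∀ t' ∈ U, t + t' ∈ U := by
    intro t ht t' ht'
    simp only [hU, mem_ofPred_eq, Complex.add_im, Complex.add_re] at ht ht' ⊢
    have := abs_add_le t.im t'.im
    linarith
  have hUc : Convex ℝ U := by
    intro x hx y hy a b ha hb hab
    simp only [hU, mem_ofPred_eq, Complex.add_im, Complex.add_re, Complex.smul_im, Complex.smul_re,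
      smul_eq_mul] at hx hy ⊢
    have h1 := abs_add_le (a * x.im) (b * y.im)
    rw [abs_mul, abs_mul, abs_of_nonneg ha, abs_of_nonneg hb] at h1
    rcases eq_or_lt_of_le ha with rfl | ha'
    · obtain rfl : b = 1 := by linarith
      simpa using hy
    · nlinarith [mul_lt_mul_of_pos_left hx ha', mul_le_mul_of_nonneg_left hy.le hb]
  obtain ⟨C, χ, hC, hχ, hb⟩ := gelAux_char (A := X →L[ℂ] X) ContinuousLinearMap.norm_id_le
    (tr '' Adm Ω) (by
      rintro _ ⟨t, ht, rfl⟩ _ ⟨t', ht', rfl⟩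
      rw [← hmul t ht t' ht', ← hmul t' ht' t ht, add_comm]) (tr 1) ⟨1, hUA 1 hU1, rfl⟩ l hl
  let f : ℂ → ℂ := fun t => if h : t ∈ Adm Ω then χ ⟨tr t, hC _ ⟨t, h, rfl⟩⟩ else 0
  have hf : ∀ t (h : t ∈ Adm Ω), f t = χ ⟨tr t, hC _ ⟨t, h, rfl⟩⟩ := fun t h => dif_pos h
  have hfm : ∀ t ∈ Adm Ω, ∀ t' ∈ Adm Ω, f (t + t') = f t * f t' := by
    intro t ht t' ht'
    rw [hf _ (hadd t ht t' ht'), hf t ht, hf t' ht', ← map_mul]
    congr 1
    exact Subtype.ext (hmul t ht t' ht')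
  have hfb : ∀ t ∈ Adm Ω, ‖f t‖ ≤ 1 := fun t ht => by
    rw [hf t ht]; exact (hb _).trans (hnorm t ht)
  have hf1 : f 1 = l := by rw [hf 1 (hUA 1 hU1)]; exact hχ
  have hfd : DifferentiableOn ℂ f U := by
    intro t ht
    obtain ⟨R, hR, hball⟩ := Metric.isOpen_iff.mp hUo t ht
    have hin : ∀ a ∈ ball (0 : ℂ) R, t + a ∈ Adm Ω := fun a ha =>
      hUA _ (hball (by simpa using ha))
    obtain ⟨L, hL⟩ := gelAux_lim (fun a => a⁻¹ • (f (t + a) - f t)) R (4 / R ^ 2) hR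
      (by positivity) (by
      intro a b ha hb' ha0 hb0
      have e1 : a⁻¹ • (f (t + a) - f t) - b⁻¹ • (f (t + b) - f t) =
          χ (a⁻¹ • (⟨tr (t + a), hC _ ⟨_, hin a ha, rfl⟩⟩ - ⟨tr t, hC _ ⟨_, hUA t ht, rfl⟩⟩) -
            b⁻¹ • (⟨tr (t + b), hC _ ⟨_, hin b hb', rfl⟩⟩ - ⟨tr t, hC _ ⟨_, hUA t ht, rfl⟩⟩)) := by
        rw [hf _ (hin a ha), hf _ (hin b hb'), hf _ (hUA t ht)]
        simp only [map_sub, map_smul]
      rw [e1]
      refine (hb _).trans ?_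
      change ‖a⁻¹ • (tr (t + a) - tr t) - b⁻¹ • (tr (t + b) - tr t)‖ ≤ _
      refine ContinuousLinearMap.opNorm_le_bound _ (by positivity) fun x => ?_
      refine hX.norm_le _ _ (by positivity) fun z hz => ?_
      have hmaps : MapsTo (fun a : ℂ => z + (t + a)) (ball 0 R) Ω := fun a ha => hin a ha z hz
      have := gelAux_slope (fun a => e x (z + (t + a))) R ‖x‖ hR
        ((hX.diff x).comp (by fun_prop) hmaps) (fun a ha => hX.le x _ (hmaps ha)) a b ha hb' ha0 hb0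
      simp only [sub_apply, smul_apply, map_sub, map_smul,
        Pi.sub_apply, Pi.smul_apply, smul_eq_mul]
      rw [hX.tr_eq _ (hin a ha) x z hz, hX.tr_eq _ (hin b hb') x z hz,
        hX.tr_eq _ (hUA t ht) x z hz]
      simpa only [add_zero] using this)
    exact (hasDerivAt_iff_tendsto_slope_zero.mpr hL).differentiableAt.differentiableWithinAt
  by_cases hl0 : l = 0
  · exact Or.inl hl0
  right
  obtain ⟨c, hc⟩ := gelAux_exp U hUo hUc.isPreconnected hU1 hUadd f hfd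
    (fun t ht t' ht' => hfm t (hUA t ht) t' (hUA t' ht')) (by rw [hf1]; exact hl0)
  refine ⟨-c, fun t ht => ?_, by rw [← hf1, hc 1 hU1]; simp⟩
  set r : ℝ := |t.re| + |t.im| / μ + 1 with hr
  have hr0 : 0 < r := by positivity
  have hr1 : (r : ℂ) ∈ U := by simpa [hU] using mul_pos hμ hr0
  have hr2 : t + r ∈ U := by
    simp only [hU, mem_ofPred_eq, Complex.add_im, Complex.add_re, Complex.ofReal_im,
      Complex.ofReal_re, add_zero]
    have h1 : μ * (t.re + r) = μ * (t.re + |t.re|) + |t.im| + μ := by rw [hr]; field_simp; ring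
    have h2 : 0 ≤ t.re + |t.re| := by linarith [neg_abs_le t.re]
    have := mul_nonneg hμ.le h2
    linarith
  have h3 := hfm t ht r (hUA _ hr1)
  rw [hc _ hr2, hc _ hr1, mul_add, Complex.exp_add] at h3
  have h4 : f t = Complex.exp (c * t) := (mul_right_cancel₀ (Complex.exp_ne_zero _) h3).symm
  have h5 := hfb t ht
  rw [h4, Complex.norm_exp, Real.exp_le_one_iff] at h5
  rw [neg_mul, Complex.neg_re]
  linarith

end Pool.Agent.H28Z.Da
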