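import Mathlib

set_option autoImplicit false

namespace Pool.Agent.H793Z.Erd

open Real

theorem ratio_poly {w t x q : ℝ} (hw : 0 < w) (hwt : w ≤ t) (ht : t ≤ 1 / 20)
    (hw2 : w ≤ 1 / 1999) (hx : x = t - 2 * w) (hq : q * (1 - x) = 1) :
    q + q ^ 3 * w ^ 2 / 12 + q ^ 5 * w ^ 4 ≤ (1 + x + x ^ 2 + 3 / 2 * t ^ 3) * (1 + w ^ 2 / 12) := by
  have ht0 : 0 < t := lt_of_lt_of_le hw hwt
  have hx1 : x ≤ t := by linarith
  have hx2 : -t ≤ x := by linarith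
  have h1x : 0 < 1 - x := by linarith
  have hq0 : 0 < q := by
    by_contra h
    have : q * (1 - x) ≤ 0 := mul_nonpos_of_nonpos_of_nonneg (not_lt.1 h) h1x.le
    linarith
  have hq1 : q ≤ 1 + 106 / 100 * t := by
    by_contra h
    have h' : 1 + 106 / 100 * t < q := not_le.1 h
    have : (1 + 106 / 100 * t) * (1 - x) < q * (1 - x) := mul_lt_mul_of_pos_right h' h1x
    nlinarith
  have hq2 : q ≤ 106 / 100 := by linarith
  have hqe : q = 1 + x + x ^ 2 + x ^ 3 * q := by nlinarith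
  have hx3 : x ^ 3 ≤ t ^ 3 := by
    rcases le_total 0 x with h | h
    · exact pow_le_pow_left₀ h hx1 3
    · have : x ^ 3 ≤ 0 := Odd.pow_nonpos (by decide) h
      have : 0 ≤ t ^ 3 := by positivity
      linarith
  have ht3 : 0 < t ^ 3 := by positivity
  have e1 : x ^ 3 * q ≤ 106 / 100 * t ^ 3 := by
    calc x ^ 3 * q ≤ t ^ 3 * q := mul_le_mul_of_nonneg_right hx3 hq0.le
      _ ≤ t ^ 3 * (106 / 100) := mul_le_mul_of_nonneg_left hq2 ht3.le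
      _ = _ := by ring
  have hq3 : q ^ 3 ≤ 1 + 7 / 2 * t := by
    calc q ^ 3 ≤ (1 + 106 / 100 * t) ^ 3 := pow_le_pow_left₀ hq0.le hq1 3
      _ ≤ 1 + 7 / 2 * t := by nlinarith [mul_pos ht0 ht0]
  have hq5 : q ^ 5 ≤ 2 := by
    calc q ^ 5 ≤ (106 / 100) ^ 5 := pow_le_pow_left₀ hq0.le hq2 5
      _ ≤ 2 := by norm_num
  have hw2t : w ^ 2 ≤ t ^ 2 := pow_le_pow_left₀ hw.le hwt 2
  have hw3t : w ^ 3 ≤ t ^ 3 := pow_le_pow_left₀ hw.le hwt 3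
  have e2 : q ^ 5 * w ^ 4 ≤ 1 / 100 * t ^ 3 := by
    have : w ^ 4 ≤ 1 / 1999 * t ^ 3 := by
      calc w ^ 4 = w * w ^ 3 := by ring
        _ ≤ 1 / 1999 * t ^ 3 := mul_le_mul hw2 hw3t (by positivity) (by norm_num)
    calc q ^ 5 * w ^ 4 ≤ 2 * (1 / 1999 * t ^ 3) :=
          mul_le_mul hq5 this (by positivity) (by norm_num)
      _ ≤ _ := by linarith
  have e3 : q ^ 3 * w ^ 2 ≤ (1 + x + x ^ 2 + 3 / 2 * t ^ 3) * w ^ 2 + 9 / 2 * t ^ 3 := by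
    have h1 : q ^ 3 ≤ (1 + x + x ^ 2 + 3 / 2 * t ^ 3) + 9 / 2 * t := by nlinarith [sq_nonneg x]
    have h2 : t * w ^ 2 ≤ t ^ 3 := by nlinarith
    calc q ^ 3 * w ^ 2 ≤ ((1 + x + x ^ 2 + 3 / 2 * t ^ 3) + 9 / 2 * t) * w ^ 2 :=
          mul_le_mul_of_nonneg_right h1 (by positivity)
      _ = (1 + x + x ^ 2 + 3 / 2 * t ^ 3) * w ^ 2 + 9 / 2 * (t * w ^ 2) := by ring
      _ ≤ _ := by linarith
  nlinarith

theorem exp_poly {c t x : ℝ} (hc1 : 693 / 1000 ≤ c) (hc2 : c ≤ 7 / 10) (ht0 : 0 < t)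
    (ht : t ≤ 1 / 20) (hx1 : x ≤ t) (hx2 : -t ≤ x) :
    1 - c * x + (c ^ 2 / 2 - c) * x ^ 2 - 2 * t ^ 3 ≤
      Real.exp (-(c * (x + x ^ 2 + 3 / 2 * t ^ 3))) := by
  set e := x ^ 2 + 3 / 2 * t ^ 3 with he
  have hxx : x ^ 2 ≤ t ^ 2 := by nlinarith
  have ht3 : 0 < t ^ 3 := by positivity
  have ht2 : 0 < t ^ 2 := by positivity
  have he0 : 0 ≤ e := by positivity
  have he1 : e ≤ 11 / 10 * t ^ 2 := by nlinarith
  have hy : |-(c * (x + x ^ 2 + 3 / 2 * t ^ 3))| ≤ 3 / 4 * t := by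
    rw [abs_neg, abs_mul, abs_of_pos (by linarith : 0 < c)]
    have : |x + x ^ 2 + 3 / 2 * t ^ 3| ≤ 106 / 100 * t := by
      rw [abs_le]
      constructor <;> nlinarith
    calc c * |x + x ^ 2 + 3 / 2 * t ^ 3| ≤ 7 / 10 * (106 / 100 * t) :=
          mul_le_mul hc2 this (abs_nonneg _) (by norm_num)
      _ ≤ _ := by linarith
  set y := -(c * (x + x ^ 2 + 3 / 2 * t ^ 3)) with hydef
  have hb := Real.exp_bound (x := y) (hy.trans (by linarith)) (n := 3) (by norm_num)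
  simp only [Finset.sum_range_succ, Finset.sum_range_zero, Nat.factorial] at hb
  norm_num at hb
  have h3 : |y| ^ 3 ≤ (3 / 4 * t) ^ 3 := pow_le_pow_left₀ (abs_nonneg _) hy 3
  have h4 := (abs_le.1 hb).1
  have hy2 : c ^ 2 * x ^ 2 - 11 / 10 * t ^ 3 ≤ y ^ 2 := by
    have h5 : y ^ 2 = c ^ 2 * (x ^ 2 + 2 * (x * e) + e ^ 2) := by rw [hydef, he]; ring
    have h6 : -(11 / 10 * t ^ 3) ≤ x * e := by nlinarith
    have h7 : c ^ 2 ≤ 1 / 2 := by nlinarith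
    have h8 : 0 ≤ c ^ 2 := sq_nonneg c
    have h9 : -(11 / 10 * t ^ 3) ≤ c ^ 2 * (2 * (x * e)) := by nlinarith
    have h10 : 0 ≤ c ^ 2 * e ^ 2 := by positivity
    nlinarith
  have h11 : c * t ^ 3 ≤ 7 / 10 * t ^ 3 := mul_le_mul_of_nonneg_right hc2 ht3.le
  have h12 : y = -(c * x) - c * x ^ 2 - 3 / 2 * (c * t ^ 3) := by rw [hydef]; ring
  nlinarith

/-- the polynomial sub-solution -/
noncomputable def pp (c w t : ℝ) : ℝ :=
  1 - 2 * c * (t - w) + ((3 * c ^ 2 - 2 * c) * (t - w) ^ 2 + 4 * c ^ 2 * (t - w) * w +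
    (6 * c ^ 2 - 4 * c) * w ^ 2) - 3 * (2 * t ^ 3 + 6 * t ^ 2 * w + 18 * t * w ^ 2 + 26 * w ^ 3)

noncomputable def PP (c w t : ℝ) : ℝ :=
  (1 - c * (t - 2 * w) + (c ^ 2 / 2 - c) * (t - 2 * w) ^ 2 - 2 * t ^ 3) / 2

theorem step_poly {c w t : ℝ} (hc1 : 693 / 1000 ≤ c) (hc2 : c ≤ 7 / 10) (hw : 0 < w)
    (hwt : w ≤ t) (ht : t ≤ 1 / 20) (hw2 : w ≤ 1 / 1999) :
    pp c w t ≤ PP c w t * (1 + pp c w (t + w)) := by
  have ht0 : 0 < t := lt_of_lt_of_le hw hwt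
  set x := t - 2 * w with hx
  have hx1 : x ≤ t := by linarith
  have hx2 : -t ≤ x := by linarith
  have hxx : x ^ 2 ≤ t ^ 2 := by nlinarith
  set b := (3 * c ^ 2 - 2 * c) * t ^ 2 + 4 * c ^ 2 * t * w + (6 * c ^ 2 - 4 * c) * w ^ 2 with hb
  set g := 3 * (2 * (t + w) ^ 3 + 6 * (t + w) ^ 2 * w + 18 * (t + w) * w ^ 2 + 26 * w ^ 3) with hg
  have hcc : c ^ 2 ≤ 49 / 100 := by nlinarith
  have k1 : 0 ≤ 3 * c ^ 2 - 2 * c := by nlinarith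
  have k2 : 3 * c ^ 2 - 2 * c ≤ 7 / 100 := by nlinarith
  have htw : t * w ≤ t ^ 2 := by nlinarith
  have hww : w ^ 2 ≤ t ^ 2 := by nlinarith
  have ht2 : 0 < t ^ 2 := by positivity
  have ht3 : 0 < t ^ 3 := by positivity
  have hb0 : 0 ≤ b := by
    have : 0 ≤ (6 * c ^ 2 - 4 * c) * w ^ 2 := mul_nonneg (by linarith) (by positivity)
    have : 0 ≤ (3 * c ^ 2 - 2 * c) * t ^ 2 := mul_nonneg k1 ht2.le
    have : 0 ≤ 4 * c ^ 2 * t * w := by positivity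
    linarith
  have hb1 : b ≤ 22 / 10 * t ^ 2 := by
    have a1 : (6 * c ^ 2 - 4 * c) * w ^ 2 ≤ 14 / 100 * t ^ 2 :=
      mul_le_mul (by linarith) hww (by positivity) (by norm_num)
    have a2 : (3 * c ^ 2 - 2 * c) * t ^ 2 ≤ 7 / 100 * t ^ 2 :=
      mul_le_mul_of_nonneg_right k2 ht2.le
    have a3 : c ^ 2 * (t * w) ≤ 49 / 100 * t ^ 2 :=
      mul_le_mul hcc htw (by positivity) (by norm_num)
    nlinarith
  have hg0 : 0 ≤ g := by positivity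
  have hg1 : g ≤ 306 * t ^ 3 := by
    have a0 : t + w ≤ 2 * t := by linarith
    have a1 : (t + w) ^ 3 ≤ (2 * t) ^ 3 := pow_le_pow_left₀ (by positivity) a0 3
    have a2 : (t + w) ^ 2 * w ≤ (2 * t) ^ 2 * t :=
      mul_le_mul (pow_le_pow_left₀ (by positivity) a0 2) hwt hw.le (by positivity)
    have a3 : (t + w) * w ^ 2 ≤ (2 * t) * t ^ 2 := mul_le_mul a0 hww (by positivity) (by positivity)
    have a4 : w ^ 3 ≤ t ^ 3 := pow_le_pow_left₀ hw.le hwt 3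
    nlinarith
  have hd : c ^ 2 / 2 - c ≤ 0 := by nlinarith
  have hd2 : -(1 / 2) ≤ c ^ 2 / 2 - c := by nlinarith
  have hP : PP c w t ≤ (1 + w) / 2 := by
    unfold PP
    have a1 : (c ^ 2 / 2 - c) * (t - 2 * w) ^ 2 ≤ 0 := mul_nonpos_of_nonpos_of_nonneg hd (sq_nonneg _)
    have a2 : -(c * (t - 2 * w)) ≤ w := by nlinarith
    linarith
  have hsplit : PP c w t * (1 + pp c w (t + w)) =
      (1 - 2 * c * (t - w) + ((3 * c ^ 2 - 2 * c) * (t - w) ^ 2 + 4 * c ^ 2 * (t - w) * w +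
        (6 * c ^ 2 - 4 * c) * w ^ 2))
      + (-(c * (x * b)) - 2 * c * t * ((c ^ 2 / 2 - c) * x ^ 2)) / 2
      + (c ^ 2 / 2 - c) * (x ^ 2 * b) / 2 - t ^ 3 * (2 - 2 * c * t + b) - PP c w t * g := by
    unfold PP pp
    rw [hb, hg, hx]
    ring
  have hγ : 3 * (2 * t ^ 3 + 6 * t ^ 2 * w + 18 * t * w ^ 2 + 26 * w ^ 3) = 3 * t ^ 3 + g / 2 := by
    rw [hg]; ring
  have e1 : c * (x * b) ≤ 154 / 100 * t ^ 3 := by
    have a1 : x * b ≤ t * (22 / 10 * t ^ 2) :=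
      (mul_le_mul_of_nonneg_right hx1 hb0).trans (mul_le_mul_of_nonneg_left hb1 ht0.le)
    have a2 : c * (x * b) ≤ c * (t * (22 / 10 * t ^ 2)) :=
      mul_le_mul_of_nonneg_left a1 (by linarith)
    have a3 : c * (t * (22 / 10 * t ^ 2)) ≤ 7 / 10 * (t * (22 / 10 * t ^ 2)) :=
      mul_le_mul_of_nonneg_right hc2 (by positivity)
    nlinarith
  have e2 : 2 * c * t * ((c ^ 2 / 2 - c) * x ^ 2) ≤ 0 :=
    mul_nonpos_of_nonneg_of_nonpos (by have : 0 < c := by linarith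
                                       positivity)
      (mul_nonpos_of_nonpos_of_nonneg hd (sq_nonneg _))
  have e3 : -(6 / 100 * t ^ 3) ≤ (c ^ 2 / 2 - c) * (x ^ 2 * b) := by
    have a1 : x ^ 2 * b ≤ t ^ 2 * (22 / 10 * t ^ 2) := mul_le_mul hxx hb1 hb0 ht2.le
    have a2 : 0 ≤ x ^ 2 * b := by positivity
    have a3 : t ^ 2 * (22 / 10 * t ^ 2) ≤ 11 / 100 * t ^ 3 := by nlinarith
    nlinarith
  have e4 : t ^ 3 * (2 - 2 * c * t + b) ≤ t ^ 3 * 2 := by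
    apply mul_le_mul_of_nonneg_left _ ht3.le
    nlinarith
  have e5 : PP c w t * g ≤ g / 2 + 8 / 100 * t ^ 3 := by
    have a1 : PP c w t * g ≤ (1 + w) / 2 * g := mul_le_mul_of_nonneg_right hP hg0
    have a2 : w * g ≤ 1 / 1999 * (306 * t ^ 3) := mul_le_mul hw2 hg1 hg0 (by norm_num)
    nlinarith
  rw [hsplit]
  unfold pp
  rw [hγ]
  linarith

theorem PP_nonneg {c w t : ℝ} (hc1 : 693 / 1000 ≤ c) (hc2 : c ≤ 7 / 10) (hw : 0 < w)
    (hwt : w ≤ t) (ht : t ≤ 1 / 20) : 0 ≤ PP c w t := by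
  unfold PP
  have hx1 : t - 2 * w ≤ t := by linarith
  have hx2 : -t ≤ t - 2 * w := by linarith
  have hxx : (t - 2 * w) ^ 2 ≤ t ^ 2 := by nlinarith
  have ht0 : 0 < t := lt_of_lt_of_le hw hwt
  have a1 : c * (t - 2 * w) ≤ 1 / 20 := by nlinarith
  have a2 : -(1 / 100) ≤ (c ^ 2 / 2 - c) * (t - 2 * w) ^ 2 := by nlinarith [sq_nonneg (t - 2 * w)]
  have a3 : t ^ 3 ≤ (1 / 20) ^ 3 := pow_le_pow_left₀ ht0.le ht 3
  linarith

theorem PP_le_half {c w t : ℝ} (hc1 : 693 / 1000 ≤ c) (hc2 : c ≤ 7 / 10) (hw : 0 < w)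
    (hwt : 2 * w ≤ t) : PP c w t ≤ 1 / 2 := by
  unfold PP
  have hd : c ^ 2 / 2 - c ≤ 0 := by nlinarith
  have a1 : (c ^ 2 / 2 - c) * (t - 2 * w) ^ 2 ≤ 0 := mul_nonpos_of_nonpos_of_nonneg hd (sq_nonneg _)
  have a2 : 0 ≤ c * (t - 2 * w) := mul_nonneg (by linarith) (by linarith)
  have a3 : 0 ≤ t ^ 3 := by have : 0 < t := by linarith
                            positivity
  linarith

theorem PP_le_one {c w t : ℝ} (hc1 : 693 / 1000 ≤ c) (hc2 : c ≤ 7 / 10) (hw : 0 < w)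
    (hwt : w ≤ t) (ht : t ≤ 1 / 20) : PP c w t ≤ 1 := by
  unfold PP
  have hd : c ^ 2 / 2 - c ≤ 0 := by nlinarith
  have a1 : (c ^ 2 / 2 - c) * (t - 2 * w) ^ 2 ≤ 0 := mul_nonpos_of_nonpos_of_nonneg hd (sq_nonneg _)
  have a2 : -(c * (t - 2 * w)) ≤ w := by nlinarith
  have a3 : 0 ≤ t ^ 3 := by have : 0 < t := by linarith
                            positivity
  linarith

theorem pp_le_two {c w t : ℝ} (hc1 : 693 / 1000 ≤ c) (hc2 : c ≤ 7 / 10) (hw : 0 < w)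
    (hwt : w ≤ t) (ht : t ≤ 1 / 20) : pp c w t ≤ 2 := by
  unfold pp
  have ht0 : 0 < t := lt_of_lt_of_le hw hwt
  have a0 : 0 ≤ 3 * (2 * t ^ 3 + 6 * t ^ 2 * w + 18 * t * w ^ 2 + 26 * w ^ 3) := by positivity
  have a1 : 0 ≤ 2 * c * (t - w) := mul_nonneg (by linarith) (by linarith)
  have hcc : c ^ 2 ≤ 49 / 100 := by nlinarith
  have k1 : 0 ≤ 3 * c ^ 2 - 2 * c := by nlinarith
  have k2 : 3 * c ^ 2 - 2 * c ≤ 7 / 100 := by nlinarith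
  have b1 : (t - w) ^ 2 ≤ 1 := by nlinarith
  have b2 : (t - w) * w ≤ 1 / 100 := by nlinarith
  have b3 : w ^ 2 ≤ 1 := by nlinarith
  have b0 : 0 ≤ (t - w) * w := mul_nonneg (by linarith) hw.le
  have a2 : (3 * c ^ 2 - 2 * c) * (t - w) ^ 2 ≤ 7 / 100 * 1 :=
    mul_le_mul k2 b1 (sq_nonneg _) (by norm_num)
  have a3 : c ^ 2 * ((t - w) * w) ≤ 49 / 100 * (1 / 100) := mul_le_mul hcc b2 b0 (by norm_num)
  have a4 : (6 * c ^ 2 - 4 * c) * w ^ 2 ≤ 14 / 100 * 1 :=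
    mul_le_mul (by linarith) b3 (sq_nonneg _) (by norm_num)
  nlinarith

end Pool.Agent.H793Z.Erd
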