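import Mathlib
import Pool.Agent.H793Z.ErdA

set_option autoImplicit false

namespace Pool.Agent.H793Z.Erd

open Real

theorem log_lower {m : ℝ} (hm : 2 ≤ m) :
    1 / (m - 1 / 2) + (1 / (m - 1 / 2)) ^ 3 / 12 ≤ Real.log (m / (m - 1)) := by
  have h0 : 0 < 2 * m - 1 := by linarith
  have h := Real.sum_range_le_log_div (x := 1 / (2 * m - 1)) (by positivity)
    (by rw [div_lt_one h0]; linarith) 2
  have e : (1 + 1 / (2 * m - 1)) / (1 - 1 / (2 * m - 1)) = m / (m - 1) := by
    have : m - 1 ≠ 0 := by linarith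
    have h2 : 2 * m - 1 - 1 ≠ 0 := by linarith
    field_simp
    ring
  rw [e] at h
  simp only [Finset.sum_range_succ, Finset.sum_range_zero] at h
  norm_num at h
  have e2 : 1 / (m - 1 / 2) = 2 * (2 * m - 1)⁻¹ := by
    rw [show (2 * m - 1) = 2 * (m - 1 / 2) by ring, mul_inv, ← mul_assoc]
    norm_num
  rw [e2, mul_pow, inv_pow]
  linarith

theorem log_upper {k : ℝ} (hk : 1 ≤ k) :
    Real.log ((k + 1) / k) ≤ 1 / (k + 1 / 2) + (1 / (k + 1 / 2)) ^ 3 / 12 + (1 / (k + 1 / 2)) ^ 5 := by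
  have h0 : 0 < 2 * k + 1 := by linarith
  set z := 1 / (2 * k + 1) with hz
  have hz0 : 0 < z := by positivity
  have hz1 : z ≤ 1 / 3 := by
    rw [hz]; apply one_div_le_one_div_of_le (by norm_num); linarith
  have h := Real.log_div_le_sum_range_add (x := z) hz0.le (by linarith) 2
  have e : (1 + z) / (1 - z) = (k + 1) / k := by
    have : k ≠ 0 := by linarith
    have h2 : 2 * k + 1 - 1 ≠ 0 := by linarith
    rw [hz]
    field_simp
    ring
  rw [e] at h
  simp only [Finset.sum_range_succ, Finset.sum_range_zero] at h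
  norm_num at h
  have e2 : 1 / (k + 1 / 2) = 2 * z := by
    rw [hz, show (2 * k + 1) = 2 * (k + 1 / 2) by ring]
    generalize k + 1 / 2 = s
    rw [one_div, one_div, mul_inv, ← mul_assoc]
    norm_num
  have h3 : z ^ 5 / (1 - z ^ 2) ≤ 2 * z ^ 5 := by
    rw [div_le_iff₀ (by nlinarith)]
    have : 0 < z ^ 5 := by positivity
    have : z ^ 2 ≤ 1 / 9 := by nlinarith
    nlinarith
  have h5 : 0 < z ^ 5 := by positivity
  rw [e2, mul_pow, mul_pow]
  linarith

theorem rho_bound {m k : ℝ} {n : ℕ} (hm : 2000 ≤ m) (hk : k ≤ m)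
    (ht : (m - k + 1) * (1 / (m - 1 / 2)) ≤ 1 / 20)
    (H : (1 - 1 / m) ^ n > 1 / 2) :
    PP (Real.log 2) (1 / (m - 1 / 2)) ((m - k + 1) * (1 / (m - 1 / 2))) * (k + 1) ^ n ≤ k ^ n := by
  set c := Real.log 2 with hc
  set w := 1 / (m - 1 / 2) with hw
  set t := (m - k + 1) * w with htdef
  have hc1 : 693 / 1000 ≤ c := by have := Real.log_two_gt_d9; linarith
  have hc2 : c ≤ 7 / 10 := by have := Real.log_two_lt_d9; linarith
  have hs : 0 < m - 1 / 2 := by linarith
  have hw0 : 0 < w := by positivity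
  have hws : w * (m - 1 / 2) = 1 := by rw [hw]; exact one_div_mul_cancel hs.ne'
  have hw2 : w ≤ 1 / 1999 := by
    rw [hw]; apply one_div_le_one_div_of_le (by norm_num); linarith
  have hwt : w ≤ t := by rw [htdef]; nlinarith
  have hk1 : 1 ≤ k := by
    by_contra h
    have h' : k < 1 := not_le.1 h
    have : m * w ≤ t := by rw [htdef]; nlinarith
    nlinarith
  set x := t - 2 * w with hx
  set q := (m - 1 / 2) / (k + 1 / 2) with hq
  have hk2 : 0 < k + 1 / 2 := by linarith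
  have hq1 : q * (1 - x) = 1 := by
    have : 1 - x = (k + 1 / 2) * w := by rw [hx, htdef]; nlinarith
    rw [this, hq, ← mul_assoc, div_mul_cancel₀ _ hk2.ne', mul_comm]
    exact hws
  have hu : 1 / (k + 1 / 2) = q * w := by
    rw [hq, div_mul_eq_mul_div, mul_comm, hws]
  have hr := ratio_poly hw0 hwt ht hw2 hx hq1
  set r := 1 + x + x ^ 2 + 3 / 2 * t ^ 3 with hrdef
  have ht0 : 0 < t := lt_of_lt_of_le hw0 hwt
  have hr0 : 0 ≤ r := by
    have : 0 ≤ x ^ 2 := sq_nonneg x
    have : 0 ≤ t ^ 3 := by positivity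
    linarith
  have hL := log_lower (m := m) (by linarith)
  have hU := log_upper hk1
  rw [hu] at hU
  rw [← hw] at hL
  have h1 : Real.log ((k + 1) / k) ≤ r * Real.log (m / (m - 1)) := by
    calc Real.log ((k + 1) / k) ≤ q * w + (q * w) ^ 3 / 12 + (q * w) ^ 5 := hU
      _ = w * (q + q ^ 3 * w ^ 2 / 12 + q ^ 5 * w ^ 4) := by ring
      _ ≤ w * (r * (1 + w ^ 2 / 12)) := mul_le_mul_of_nonneg_left hr hw0.le
      _ = r * (w + w ^ 3 / 12) := by ring
      _ ≤ _ := mul_le_mul_of_nonneg_left hL hr0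
  have h2 : (n : ℝ) * Real.log (m / (m - 1)) ≤ c := by
    have hm1 : 0 < m - 1 := by linarith
    have hm0 : 0 < m := by linarith
    have e : 1 - 1 / m = (m / (m - 1))⁻¹ := by field_simp
    rw [e, inv_pow] at H
    have hpos : 0 < (m / (m - 1)) ^ n := by positivity
    have : (m / (m - 1)) ^ n ≤ 2 := by
      have h3 := H.le
      rw [one_div, inv_le_inv₀ (by norm_num) hpos] at h3
      exact h3
    rw [← Real.log_pow, hc]
    exact Real.log_le_log hpos this
  have h3 : (n : ℝ) * Real.log ((k + 1) / k) ≤ c * r := by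
    calc (n : ℝ) * Real.log ((k + 1) / k) ≤ n * (r * Real.log (m / (m - 1))) :=
          mul_le_mul_of_nonneg_left h1 (Nat.cast_nonneg n)
      _ = r * (n * Real.log (m / (m - 1))) := by ring
      _ ≤ r * c := mul_le_mul_of_nonneg_left h2 hr0
      _ = c * r := by ring
  have h4 := exp_poly hc1 hc2 ht0 ht (show x ≤ t by linarith) (show -t ≤ x by linarith)
  have h5 : PP c w t ≤ Real.exp (-(c * r)) := by
    have e : -(c * r) = -(c * (x + x ^ 2 + 3 / 2 * t ^ 3)) + -c := by rw [hrdef]; ring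
    have e2 : Real.exp (-c) = 1 / 2 := by
      rw [Real.exp_neg, hc, Real.exp_log (by norm_num)]; norm_num
    rw [e, Real.exp_add, e2]
    unfold PP
    rw [← hx]
    linarith
  have hk0 : 0 < k := by linarith
  have h6 : Real.exp (-(c * r)) * ((k + 1) / k) ^ n ≤ 1 := by
    have e : ((k + 1) / k) ^ n = Real.exp (n * Real.log ((k + 1) / k)) := by
      rw [← Real.log_pow, Real.exp_log (by positivity)]
    rw [e, ← Real.exp_add, Real.exp_le_one_iff]
    linarith
  have h7 : PP c w t * ((k + 1) / k) ^ n ≤ 1 :=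
    (mul_le_mul_of_nonneg_right h5 (by positivity)).trans h6
  rw [div_pow, ← mul_div_assoc, div_le_one (by positivity)] at h7
  exact h7

theorem pow_big (J : ℕ) (hJ : 80 ≤ J) : 200 * (25 * (J + 1)) ^ 2 ≤ 2 ^ J := by
  induction J, hJ using Nat.le_induction with
  | base => norm_num
  | succ J hJ ih => rw [pow_succ 2 J]; nlinarith

theorem large {m n : ℕ} (hm : 2000 ≤ m) (H : (1 - 1 / (m : ℝ)) ^ n > 1 / 2) :
    (m + 1) ^ n < ∑ i ∈ Finset.Icc 1 m, i ^ n := by
  set c := Real.log 2 with hc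
  set w := 1 / ((m : ℝ) - 1 / 2) with hw
  have hc1 : 693 / 1000 ≤ c := by have := Real.log_two_gt_d9; linarith
  have hc2 : c ≤ 7 / 10 := by have := Real.log_two_lt_d9; linarith
  have hmR : (2000 : ℝ) ≤ m := by exact_mod_cast hm
  have hs : 0 < (m : ℝ) - 1 / 2 := by linarith
  have hw0 : 0 < w := by positivity
  have hws : w * ((m : ℝ) - 1 / 2) = 1 := by rw [hw]; exact one_div_mul_cancel hs.ne'
  have hw2 : w ≤ 1 / 1999 := by
    rw [hw]; apply one_div_le_one_div_of_le (by norm_num); linarith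
  set J := m / 25 with hJ
  have hJ1 : 80 ≤ J := by omega
  have hJ2 : 25 * J ≤ m := by omega
  have hJ3 : m ≤ 25 * (J + 1) := by omega
  have hJR : (25 : ℝ) * J ≤ m := by exact_mod_cast hJ2
  have hJt : ((J : ℝ) + 1) * w ≤ 1 / 20 := by
    have : ((J : ℝ) + 1) ≤ 1 / 20 * ((m : ℝ) - 1 / 2) := by linarith
    nlinarith
  set θ : ℝ := 2 / 2 ^ J with hθ
  have hθ0 : 0 < θ := by positivity
  let S : ℕ → ℝ := fun k => ∑ i ∈ Finset.Icc 1 k, (i : ℝ) ^ n
  have hS0 : ∀ k, 0 ≤ S k := fun k => Finset.sum_nonneg fun i _ => by positivity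
  have hSs : ∀ k, S (k + 1) = S k + ((k : ℝ) + 1) ^ n := by
    intro k
    simp only [S]
    rw [Finset.sum_Icc_succ_top (by omega)]
    push_cast
    ring
  -- `j = J - d`, `k = m - j`
  have key : ∀ d : ℕ, d ≤ J - 1 →
      (pp c w (((J - d : ℕ) + 1) * w) - θ * 2 ^ (J - d)) * (((m - (J - d) : ℕ) : ℝ) + 1) ^ n ≤
        S (m - (J - d)) := by
    intro d
    induction d with
    | zero =>
      intro _
      simp only [Nat.sub_zero]
      have h1 : pp c w (((J : ℝ) + 1) * w) ≤ 2 :=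
        pp_le_two hc1 hc2 hw0 (by nlinarith [(Nat.cast_nonneg J : (0 : ℝ) ≤ J)]) hJt
      have h2 : θ * 2 ^ J = 2 := by rw [hθ]; field_simp
      refine le_trans (mul_nonpos_of_nonpos_of_nonneg (by linarith) (by positivity)) (hS0 _)
    | succ d ih =>
      intro hd
      have ih' := ih (by omega)
      obtain ⟨j, hj⟩ : ∃ j, J - d = j + 1 := ⟨J - d - 1, by omega⟩
      have hj' : J - (d + 1) = j := by omega
      obtain ⟨k, hk⟩ : ∃ k, m - (j + 1) = k := ⟨_, rfl⟩
      have hk' : m - j = k + 1 := by omega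
      rw [hj, hk] at ih'
      rw [hj', hk', hSs]
      have hmk : (m : ℝ) = k + 1 + j := by
        have : m = k + 1 + j := by omega
        exact_mod_cast this
      have hjJ : (j : ℝ) ≤ J := by
        have : j ≤ J := by omega
        exact_mod_cast this
      have hj1 : (1 : ℝ) ≤ j := by
        have : 1 ≤ j := by omega
        exact_mod_cast this
      have htt : ((m : ℝ) - (k + 1) + 1) = j + 1 := by linarith
      have ht : ((j : ℝ) + 1) * w ≤ 1 / 20 := by nlinarith
      have hwt : w ≤ ((j : ℝ) + 1) * w := by nlinarith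
      have hrho := rho_bound (m := m) (k := (k : ℝ) + 1) (n := n) hmR (by linarith)
        (by rw [htt]; exact ht) H
      rw [htt, ← hc, ← hw] at hrho
      have hstep := step_poly hc1 hc2 hw0 hwt ht hw2
      have hP0 := PP_nonneg hc1 hc2 hw0 hwt ht
      have hP1 := PP_le_half hc1 hc2 hw0 (show 2 * w ≤ ((j : ℝ) + 1) * w by nlinarith)
      have e1 : (((j + 1 : ℕ) : ℝ) + 1) * w = ((j : ℝ) + 1) * w + w := by push_cast; ring
      rw [e1] at ih'
      push_cast
      set P := PP c w (((j : ℝ) + 1) * w)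
      set p1 := pp c w (((j : ℝ) + 1) * w + w)
      set p0 := pp c w (((j : ℝ) + 1) * w)
      set A := ((k : ℝ) + 1) ^ n
      set B := ((k : ℝ) + 1 + 1) ^ n
      have hA : 0 < A := by positivity
      have hB : 0 < B := by positivity
      have hθj : 0 < θ * 2 ^ j := by positivity
      have e2 : θ * 2 ^ (j + 1) = 2 * (θ * 2 ^ j) := by ring
      rw [e2] at ih'
      have hSk := hS0 k
      -- `S k + A ≥ max (1, 1 + p1 - 2θ2^j) A`
      have h1 : p0 - θ * 2 ^ j ≤ P * (1 + p1 - 2 * (θ * 2 ^ j)) := by nlinarith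
      rcases le_total 0 (1 + p1 - 2 * (θ * 2 ^ j)) with hz | hz
      · calc (p0 - θ * 2 ^ j) * B ≤ P * (1 + p1 - 2 * (θ * 2 ^ j)) * B :=
              mul_le_mul_of_nonneg_right h1 hB.le
          _ = (1 + p1 - 2 * (θ * 2 ^ j)) * (P * B) := by ring
          _ ≤ (1 + p1 - 2 * (θ * 2 ^ j)) * A := mul_le_mul_of_nonneg_left hrho hz
          _ ≤ S k + A := by linarith
      · have : P * (1 + p1 - 2 * (θ * 2 ^ j)) ≤ 0 := mul_nonpos_of_nonneg_of_nonpos hP0 hz
        have : (p0 - θ * 2 ^ j) * B ≤ 0 := mul_nonpos_of_nonpos_of_nonneg (by linarith) hB.le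
        linarith
  have h1 := key (J - 1) le_rfl
  have hJJ : J - (J - 1) = 1 := by omega
  obtain ⟨k, hk⟩ : ∃ k, m = k + 1 := ⟨m - 1, by omega⟩
  have hk' : m - 1 = k := by omega
  rw [hJJ, hk'] at h1
  have hmk : (m : ℝ) = k + 1 := by exact_mod_cast hk
  have hw20 : w ≤ 1 / 20 := by linarith
  have hrho := rho_bound (m := m) (k := (m : ℝ)) (n := n) hmR le_rfl
    (by rw [sub_self, zero_add, one_mul]; exact hw20) H
  rw [sub_self, zero_add, one_mul, ← hc, ← hw] at hrho
  have hstep := step_poly hc1 hc2 hw0 le_rfl hw20 hw2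
  have hP0 := PP_nonneg hc1 hc2 hw0 le_rfl hw20
  have hP1 := PP_le_one hc1 hc2 hw0 le_rfl hw20
  have e1 : (((1 : ℕ) : ℝ) + 1) * w = w + w := by push_cast; ring
  rw [e1, ← hmk] at h1
  have hθw : θ ≤ w ^ 2 / 100 := by
    have hb := pow_big J hJ1
    have hb2 : (200 : ℝ) * (25 * (J + 1)) ^ 2 ≤ 2 ^ J := by exact_mod_cast hb
    have hm3 : (m : ℝ) ≤ 25 * (J + 1) := by exact_mod_cast hJ3
    have h2 : ((m : ℝ) - 1 / 2) ^ 2 ≤ (25 * ((J : ℝ) + 1)) ^ 2 :=
      pow_le_pow_left₀ hs.le (by linarith) 2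
    rw [hθ, div_le_iff₀ (by positivity)]
    have h3 : w ^ 2 * ((m : ℝ) - 1 / 2) ^ 2 = 1 := by rw [← mul_pow, hws]; norm_num
    have h4 : 0 < w ^ 2 := by positivity
    nlinarith
  have hp0 : 1 + 3 / 100 * w ^ 2 ≤ pp c w w := by
    unfold pp
    have a1 := Real.log_two_gt_d9
    rw [← hc] at a1
    have a2 : 11 / 100 ≤ 6 * c ^ 2 - 4 * c := by nlinarith
    have h4 : 0 < w ^ 2 := by positivity
    have a3 : 11 / 100 * w ^ 2 ≤ (6 * c ^ 2 - 4 * c) * w ^ 2 := mul_le_mul_of_nonneg_right a2 h4.le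
    have a4 : w ^ 3 ≤ 1 / 1999 * w ^ 2 := by nlinarith
    nlinarith
  have hfin : ((m : ℝ) + 1) ^ n < S m := by
    have hS : S m = S k + (m : ℝ) ^ n := by rw [hk, hSs]; push_cast; ring
    rw [hS]
    set P := PP c w w
    set p1 := pp c w (w + w)
    set A := (m : ℝ) ^ n
    set B := ((m : ℝ) + 1) ^ n
    have hA : 0 < A := by positivity
    have hB : 0 < B := by positivity
    have h4 : 0 < w ^ 2 := by positivity
    have h5 : 1 < P * (1 + p1 - θ * 2 ^ 1) := by nlinarith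
    have hz : 0 ≤ 1 + p1 - θ * 2 ^ 1 := by
      by_contra h
      have := mul_nonpos_of_nonneg_of_nonpos hP0 (not_le.1 h).le
      linarith
    calc B < P * (1 + p1 - θ * 2 ^ 1) * B := by nlinarith
      _ = (1 + p1 - θ * 2 ^ 1) * (P * B) := by ring
      _ ≤ (1 + p1 - θ * 2 ^ 1) * A := mul_le_mul_of_nonneg_left hrho hz
      _ ≤ S k + A := by linarith
  have : (((m + 1) ^ n : ℕ) : ℝ) < ((∑ i ∈ Finset.Icc 1 m, i ^ n : ℕ) : ℝ) := by
    push_cast
    exact hfin
  exact_mod_cast this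

end Pool.Agent.H793Z.Erd
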