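import Mathlib

set_option autoImplicit false

namespace Pool.Agent.H793Z.Erd

/-- sum of the `l` largest terms -/
def top (m n : ℕ) : ℕ → ℕ
  | 0 => 0
  | l + 1 => top m n l + (m - l) ^ n

def chk (m : ℕ) : Bool :=
  decide (2 * (m - 1) ^ ((2 * m - 1) * 6931471806 / 20000000000 + 1) ≤ m ^ ((2 * m - 1) * 6931471806 / 20000000000 + 1)) &&
  decide ((m + 1) ^ ((2 * m - 1) * 6931471806 / 20000000000) <
    top m ((2 * m - 1) * 6931471806 / 20000000000) (min m 40))

theorem chk_all : (List.range 1997).all (fun a => chk (a + 3)) = true := by decide +kernel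

theorem top_le (m n : ℕ) : ∀ l, l ≤ m → top m n l + ∑ i ∈ Finset.Icc 1 (m - l), i ^ n =
    ∑ i ∈ Finset.Icc 1 m, i ^ n := by
  intro l
  induction l with
  | zero => intro _; simp [top]
  | succ l ih =>
    intro hl
    rw [← ih (by omega), top]
    have : m - l = (m - (l + 1)) + 1 := by omega
    rw [this, Finset.sum_Icc_succ_top (by omega), ← this]
    ring

theorem small {m n : ℕ} (hm : 3 ≤ m) (hm2 : m < 2000) (H : m ^ n < 2 * (m - 1) ^ n) :
    (m + 1) ^ n < ∑ i ∈ Finset.Icc 1 m, i ^ n := by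
  have h := List.all_eq_true.1 chk_all (m - 3) (List.mem_range.2 (by omega))
  have e : m - 3 + 3 = m := by omega
  simp only [e, chk, Bool.and_eq_true, decide_eq_true_eq] at h
  obtain ⟨h1, h2⟩ := h
  set N := (2 * m - 1) * 6931471806 / 20000000000
  have hn : n ≤ N := by
    by_contra hcon
    obtain ⟨d, hd⟩ : ∃ d, n = N + 1 + d := ⟨n - (N + 1), by omega⟩
    rw [hd, pow_add, pow_add (m - 1), ← mul_assoc] at H
    have : 2 * (m - 1) ^ (N + 1) * (m - 1) ^ d ≤ m ^ (N + 1) * m ^ d :=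
      Nat.mul_le_mul h1 (Nat.pow_le_pow_left (by omega) d)
    omega
  have h3 : (m + 1) ^ N < ∑ i ∈ Finset.Icc 1 m, i ^ N := by
    have := top_le m N (min m 40) (min_le_left _ _)
    omega
  obtain ⟨d, hd⟩ : ∃ d, N = n + d := ⟨N - n, by omega⟩
  rw [hd] at h3
  have h4 : ∑ i ∈ Finset.Icc 1 m, i ^ (n + d) ≤ (∑ i ∈ Finset.Icc 1 m, i ^ n) * (m + 1) ^ d := by
    rw [Finset.sum_mul]
    apply Finset.sum_le_sum
    intro i hi
    rw [pow_add]
    apply Nat.mul_le_mul_left
    apply Nat.pow_le_pow_left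
    have := (Finset.mem_Icc.1 hi).2
    omega
  rw [pow_add] at h3
  exact lt_of_mul_lt_mul_right (h3.trans_le h4) (Nat.zero_le _)

theorem first {M n : ℕ} (H : 2 * M ^ n ≤ (M + 1) ^ n) :
    ∀ k, k ≤ M → ∑ i ∈ Finset.Icc 1 k, i ^ n < (k + 1) ^ n := by
  intro k
  induction k with
  | zero => intro _; simp
  | succ k ih =>
    intro hk
    rw [Finset.sum_Icc_succ_top (by omega)]
    have h1 := ih (by omega)
    have h2 : 2 * (k + 1) ^ n ≤ (k + 1 + 1) ^ n := by
      have hM : 0 < M ^ n := by have : 0 < M := by omega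
                                positivity
      apply Nat.le_of_mul_le_mul_right _ hM
      calc 2 * (k + 1) ^ n * M ^ n = (k + 1) ^ n * (2 * M ^ n) := by ring
        _ ≤ (k + 1) ^ n * (M + 1) ^ n := Nat.mul_le_mul_left _ H
        _ = ((k + 1) * (M + 1)) ^ n := by rw [mul_pow]
        _ ≤ ((k + 1 + 1) * M) ^ n := Nat.pow_le_pow_left (by nlinarith) n
        _ = (k + 1 + 1) ^ n * M ^ n := by rw [mul_pow]
    omega

end Pool.Agent.H793Z.Erd
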