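import Mathlib

set_option autoImplicit false

namespace Pool.Agent.H793Z.SG

universe v

/-- `G` is an s-group (tested against target groups in universe `v`): a Hausdorff topological
group such that every sequentially continuous homomorphism from `G` to a Hausdorff topological
group (not necessarily commutative, written additively) is continuous. -/
def IsSGroup (G : Type) [AddGroup G] [TopologicalSpace G] : Prop :=
  IsTopologicalAddGroup G ∧ T2Space G ∧
    ∀ (H : Type v) [AddGroup H] [TopologicalSpace H] [IsTopologicalAddGroup H] [T2Space H]
      (φ : G →+ H), SeqContinuous φ → Continuous φ

/-- `C_p(X)`: the additive group of continuous functions `X → ℝ`, as a subgroup of `X → ℝ` with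
the subspace topology of the product topology (pointwise convergence). -/
abbrev Cp (X : Type) [TopologicalSpace X] : Type := ↥(continuousAddSubgroup X ℝ)

/-- `C_c(X)`: the additive group of continuous functions `X → ℝ` with the compact-open
topology (the topology Mathlib puts on `C(X, ℝ)`). -/
abbrev Cc (X : Type) [TopologicalSpace X] : Type := C(X, ℝ)

end Pool.Agent.H793Z.SG
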