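import Mathlib
import Pool.Agent.H793Z.SGDefs

set_option autoImplicit false

open Filter Topology Set

namespace Pool.Agent.H793Z.SG

universe v

/-- a chain of closed neighbourhoods with `U (n+1) + U (n+1) ⊆ U n` -/
theorem exists_chain {H : Type v} [AddGroup H] [TopologicalSpace H] [IsTopologicalAddGroup H]
    {U : Set H} (hU : U ∈ 𝓝 (0 : H)) :
    ∃ V : ℕ → Set H, V 0 ⊆ U ∧ (∀ n, V n ∈ 𝓝 (0 : H)) ∧ (∀ n, IsClosed (V n)) ∧
      ∀ n, ∀ a ∈ V (n + 1), ∀ b ∈ V (n + 1), a + b ∈ V n := by
  have key : ∀ W : {W : Set H // W ∈ 𝓝 (0 : H)}, ∃ W' : {W : Set H // W ∈ 𝓝 (0 : H)},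
      IsClosed W'.1 ∧ ∀ a ∈ W'.1, ∀ b ∈ W'.1, a + b ∈ W.1 := by
    rintro ⟨W, hW⟩
    obtain ⟨V, hV, hc, -, hs⟩ := exists_closed_nhds_zero_neg_eq_add_subset hW
    exact ⟨⟨V, hV⟩, hc, fun a ha b hb => hs (Set.add_mem_add ha hb)⟩
  choose F hF1 hF2 using key
  refine ⟨fun n => (F^[n + 1] ⟨U, hU⟩).1, ?_, fun n => (F^[n + 1] ⟨U, hU⟩).2, ?_, ?_⟩
  · intro a ha
    have h0 : (0 : H) ∈ (F ⟨U, hU⟩).1 := mem_of_mem_nhds (F ⟨U, hU⟩).2
    have := hF2 ⟨U, hU⟩ a ha 0 h0
    simpa using this
  · intro n
    show IsClosed (F^[n + 1] ⟨U, hU⟩).1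
    rw [Function.iterate_succ_apply']
    exact hF1 _
  · intro n a ha b hb
    have ha' : a ∈ (F (F^[n + 1] ⟨U, hU⟩)).1 := by
      rw [← Function.iterate_succ_apply' F (n + 1)]; exact ha
    have hb' : b ∈ (F (F^[n + 1] ⟨U, hU⟩)).1 := by
      rw [← Function.iterate_succ_apply' F (n + 1)]; exact hb
    exact hF2 _ a ha' b hb'

/-- the metric fan: `ℕ × ℕ` together with a point at infinity -/
def Fan : Type := Option (ℕ × ℕ)

namespace Fan

instance : Countable Fan := inferInstanceAs (Countable (Option (ℕ × ℕ)))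

def inf : Fan := none
def pt (n k : ℕ) : Fan := some (n, k)

noncomputable def w : Fan → ℝ
  | none => 0
  | some p => 1 / ((p.1 : ℝ) + 1)

theorem w_inf : w inf = 0 := rfl
theorem w_pt (n k : ℕ) : w (pt n k) = 1 / ((n : ℝ) + 1) := rfl
theorem w_pt_pos (n k : ℕ) : 0 < w (pt n k) := by rw [w_pt]; positivity

theorem cases_on (x : Fan) : x = inf ∨ ∃ n k, x = pt n k := by
  rcases x with _ | ⟨n, k⟩
  · exact Or.inl rfl
  · exact Or.inr ⟨n, k, rfl⟩

theorem pt_ne_inf (n k : ℕ) : pt n k ≠ inf := by
  intro h; cases h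

theorem pt_inj {n k m l : ℕ} (h : pt n k = pt m l) : n = m ∧ k = l := by
  have : (n, k) = (m, l) := Option.some.inj h
  exact ⟨congrArg Prod.fst this, congrArg Prod.snd this⟩

theorem w_nonneg (x : Fan) : 0 ≤ w x := by
  rcases cases_on x with rfl | ⟨n, k, rfl⟩
  · exact le_rfl
  · exact (w_pt_pos n k).le

open Classical in
noncomputable instance : MetricSpace Fan where
  dist x y := if x = y then 0 else max (w x) (w y)
  dist_self x := by simp
  dist_comm x y := by
    by_cases h : x = y
    · simp [h]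
    · have h' : ¬ y = x := fun e => h e.symm
      simp [h, h', max_comm]
  dist_triangle x y z := by
    have hx := w_nonneg x
    have hy := w_nonneg y
    have hz := w_nonneg z
    by_cases h1 : x = z
    · simp only [h1, if_true]
      have a : (0 : ℝ) ≤ if z = y then 0 else max (w z) (w y) := by
        split_ifs
        · exact le_rfl
        · exact le_max_of_le_left hz
      have b : (0 : ℝ) ≤ if y = z then 0 else max (w y) (w z) := by
        split_ifs
        · exact le_rfl
        · exact le_max_of_le_left hy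
      linarith
    · by_cases h2 : x = y
      · subst h2; simp [h1]
      · by_cases h3 : y = z
        · subst h3; simp [h1]
        · simp only [h1, h2, h3, if_false]
          have a1 := le_max_left (w x) (w y)
          have a2 := le_max_right (w x) (w y)
          have a3 := le_max_left (w y) (w z)
          have a4 := le_max_right (w y) (w z)
          apply max_le <;> linarith
  eq_of_dist_eq_zero := by
    intro x y h
    by_contra hne
    simp only [hne, if_false] at h
    have hx := w_nonneg x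
    have hy := w_nonneg y
    have a1 := le_max_left (w x) (w y)
    have a2 := le_max_right (w x) (w y)
    rcases cases_on x with rfl | ⟨n, k, rfl⟩
    · rcases cases_on y with rfl | ⟨m, l, rfl⟩
      · exact hne rfl
      · have := w_pt_pos m l; linarith
    · have := w_pt_pos n k; linarith

theorem dist_of_ne {x y : Fan} (h : x ≠ y) : dist x y = max (w x) (w y) := by
  show (open Classical in if x = y then (0 : ℝ) else max (w x) (w y)) = _
  simp [h]

theorem dist_inf (x : Fan) : dist x inf = w x := by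
  by_cases h : x = inf
  · subst h; simp [w_inf]
  · rw [dist_of_ne h, w_inf, max_eq_left (w_nonneg x)]

theorem isOpen_singleton (n k : ℕ) : IsOpen ({pt n k} : Set Fan) := by
  rw [Metric.isOpen_iff]
  intro x hx
  rw [mem_singleton_iff] at hx
  subst hx
  refine ⟨w (pt n k), w_pt_pos n k, ?_⟩
  intro y hy
  by_contra hne
  rw [Metric.mem_ball, dist_of_ne hne] at hy
  have := le_max_right (w y) (w (pt n k))
  linarith

/-- continuity on the fan only has to be checked at infinity -/
theorem continuous_of_inf {f : Fan → ℝ} (h : ContinuousAt f inf) : Continuous f := by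
  rw [continuous_iff_continuousAt]
  intro x
  rcases cases_on x with rfl | ⟨n, k, rfl⟩
  · exact h
  · have : 𝓝 (pt n k) = pure (pt n k) := (isOpen_singleton_iff_nhds_eq_pure _).1
      (isOpen_singleton n k)
    unfold ContinuousAt
    rw [this]
    exact tendsto_pure_nhds f _

/-- a function supported in one column is continuous -/
theorem continuous_of_col {f : Fan → ℝ} (n : ℕ) (h : ∀ x, (∀ k, x ≠ pt n k) → f x = 0) :
    Continuous f := by
  apply continuous_of_inf
  have h0 : ∀ᶠ x in 𝓝 inf, f x = (fun _ => (0 : ℝ)) x := by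
    filter_upwards [Metric.ball_mem_nhds inf (w_pt_pos n 0)] with x hx
    apply h
    intro k hk
    rw [Metric.mem_ball, dist_inf, hk, w_pt, w_pt] at hx
    exact lt_irrefl _ hx
  exact continuousAt_const.congr (h0.mono fun x hx => hx.symm)

/-- a compact set meets each column in a bounded set -/
theorem col_bdd {K : Set Fan} (hK : IsCompact K) (n : ℕ) : ∃ N, ∀ k, N ≤ k → pt n k ∉ K := by
  classical
  let f : Fan → ℝ := fun x => match x with
    | none => 0
    | some p => if p.1 = n then (p.2 : ℝ) else 0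
  have hf : Continuous f := by
    apply continuous_of_col n
    intro x hx
    rcases cases_on x with rfl | ⟨m, l, rfl⟩
    · rfl
    · have : m ≠ n := by
        rintro rfl
        exact hx l rfl
      show (if m = n then (l : ℝ) else 0) = 0
      simp [this]
  obtain ⟨B, hB⟩ := hK.bddAbove_image hf.continuousOn
  obtain ⟨N, hN⟩ := exists_nat_gt B
  refine ⟨N, fun k hk hmem => ?_⟩
  have h1 : f (pt n k) ≤ B := hB ⟨_, hmem, rfl⟩
  have h2 : f (pt n k) = k := by
    show (if n = n then (k : ℝ) else 0) = k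
    simp
  have h3 : (N : ℝ) ≤ k := by exact_mod_cast hk
  linarith

theorem eventually_col (ε : ℝ) (hε : 0 < ε) : ∃ N : ℕ, ∀ n, N ≤ n → ∀ k, dist (pt n k) inf < ε := by
  obtain ⟨N, hN⟩ := exists_nat_one_div_lt hε
  refine ⟨N, fun n hn k => ?_⟩
  rw [dist_inf, w_pt]
  have : (1 : ℝ) / ((n : ℝ) + 1) ≤ 1 / ((N : ℝ) + 1) := by
    apply one_div_le_one_div_of_le (by positivity)
    have : (N : ℝ) ≤ n := by exact_mod_cast hn
    linarith
  linarith

theorem isCompact_below (c : ℕ → ℕ) :
    IsCompact ({x : Fan | x = inf ∨ ∃ n k, k < c n ∧ x = pt n k}) := by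
  apply isCompact_of_finite_subcover
  intro ι U hU hcov
  classical
  obtain ⟨i0, hi0⟩ : ∃ i, inf ∈ U i := by
    simpa using hcov (show inf ∈ {x : Fan | x = inf ∨ ∃ n k, k < c n ∧ x = pt n k} from Or.inl rfl)
  obtain ⟨ε, hε, hball⟩ := Metric.isOpen_iff.1 (hU i0) inf hi0
  obtain ⟨N, hN⟩ := eventually_col ε hε
  have hch : ∀ n k, ∃ i, k < c n → pt n k ∈ U i := by
    intro n k
    by_cases hk : k < c n
    · obtain ⟨i, hi⟩ : ∃ i, pt n k ∈ U i := by
        simpa using hcov (show pt n k ∈ {x : Fan | x = inf ∨ ∃ n k, k < c n ∧ x = pt n k} from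
          Or.inr ⟨n, k, hk, rfl⟩)
      exact ⟨i, fun _ => hi⟩
    · exact ⟨i0, fun h => absurd h hk⟩
  choose I hI using hch
  refine ⟨insert i0 ((Finset.range N).biUnion fun n => (Finset.range (c n)).image (I n)), ?_⟩
  rintro x (rfl | ⟨n, k, hk, rfl⟩)
  · simp only [mem_iUnion]
    exact ⟨i0, Finset.mem_insert_self _ _, hi0⟩
  · simp only [mem_iUnion]
    by_cases hn : N ≤ n
    · exact ⟨i0, Finset.mem_insert_self _ _, hball (hN n hn k)⟩
    · refine ⟨I n k, ?_, hI n k hk⟩
      apply Finset.mem_insert_of_mem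
      rw [Finset.mem_biUnion]
      exact ⟨n, Finset.mem_range.2 (not_le.1 hn),
        Finset.mem_image.2 ⟨k, Finset.mem_range.2 hk, rfl⟩⟩

theorem tendsto_zero_iff (F : ℕ → C(Fan, ℝ)) :
    Tendsto F atTop (𝓝 0) ↔
      ∀ K : Set Fan, IsCompact K → ∀ ε > 0, ∀ᶠ j in atTop, ∀ x ∈ K, |F j x| < ε := by
  rw [ContinuousMap.tendsto_iff_forall_isCompact_tendstoUniformlyOn]
  refine forall_congr' fun K => forall_congr' fun hK => ?_
  rw [Metric.tendstoUniformlyOn_iff]
  simp [Real.dist_eq]

theorem nhds_zero_mem {K : Set Fan} (hK : IsCompact K) {ε : ℝ} (hε : 0 < ε) :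
    {f : C(Fan, ℝ) | ∀ x ∈ K, |f x| < ε} ∈ 𝓝 (0 : C(Fan, ℝ)) := by
  have ho : IsOpen {f : C(Fan, ℝ) | MapsTo f K (Metric.ball 0 ε)} :=
    ContinuousMap.isOpen_setOfPred_mapsTo hK Metric.isOpen_ball
  have : {f : C(Fan, ℝ) | ∀ x ∈ K, |f x| < ε} = {f : C(Fan, ℝ) | MapsTo f K (Metric.ball 0 ε)} := by
    ext f
    simp [MapsTo]
  rw [this]
  apply ho.mem_nhds
  intro x _
  simpa using hε

/-- the part of `f` in column `n` from row `c` on -/
noncomputable def tail (f : C(Fan, ℝ)) (n c : ℕ) : C(Fan, ℝ) where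
  toFun x := match x with
    | none => 0
    | some p => if p.1 = n ∧ c ≤ p.2 then f (some p) else 0
  continuous_toFun := by
    apply continuous_of_col n
    intro x hx
    rcases cases_on x with rfl | ⟨m, l, rfl⟩
    · rfl
    · have : m ≠ n := by
        rintro rfl
        exact hx l rfl
      show (if m = n ∧ c ≤ l then f (pt m l) else 0) = 0
      simp [this]

theorem tail_inf (f : C(Fan, ℝ)) (n c : ℕ) : tail f n c inf = 0 := rfl
theorem tail_pt (f : C(Fan, ℝ)) (n c m l : ℕ) :
    tail f n c (pt m l) = if m = n ∧ c ≤ l then f (pt m l) else 0 := rfl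

theorem isSGroup : IsSGroup.{v} (Cc Fan) := by
  refine ⟨inferInstance, inferInstance, ?_⟩
  intro H _ _ _ _ φ hφ
  apply continuous_of_continuousAt_zero φ
  intro U hU
  rw [map_zero] at hU
  obtain ⟨V, hV0, hVn, -, hVa⟩ := exists_chain hU
  have hnull : ∀ F : ℕ → C(Fan, ℝ), Tendsto F atTop (𝓝 0) → ∀ m, ∃ j, φ (F j) ∈ V m := by
    intro F hF m
    have h1 := hφ hF
    rw [map_zero] at h1
    exact (h1.eventually (hVn m)).exists
  -- uniformly small functions
  have ha : ∃ ε > 0, ∀ f : C(Fan, ℝ), (∀ x, |f x| ≤ ε) → φ f ∈ V 1 := by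
    by_contra hcon
    push Not at hcon
    have : ∀ j : ℕ, ∃ f : C(Fan, ℝ), (∀ x, |f x| ≤ 1 / ((j : ℝ) + 1)) ∧ φ f ∉ V 1 :=
      fun j => hcon _ (by positivity)
    choose F hF1 hF2 using this
    have ht : Tendsto F atTop (𝓝 0) := by
      rw [tendsto_zero_iff]
      intro K _ ε hε
      have := (tendsto_order.1 tendsto_one_div_add_atTop_nhds_zero_nat).2 ε hε
      filter_upwards [this] with j hj x _
      exact (hF1 j x).trans_lt hj
    obtain ⟨j, hj⟩ := hnull F ht 1
    exact hF2 j hj
  -- tails of a column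
  have hb : ∀ n, ∃ c, ∀ f : C(Fan, ℝ), φ (tail f n c) ∈ V (n + 2) := by
    intro n
    by_contra hcon
    push Not at hcon
    choose F hF using hcon
    have ht : Tendsto (fun j => tail (F j) n j) atTop (𝓝 0) := by
      rw [tendsto_zero_iff]
      intro K hK ε hε
      obtain ⟨N, hN⟩ := col_bdd hK n
      filter_upwards [eventually_ge_atTop N] with j hj x hx
      rcases cases_on x with rfl | ⟨m, l, rfl⟩
      · rw [tail_inf]; simpa using hε
      · rw [tail_pt]
        split_ifs with h
        · obtain ⟨rfl, h2⟩ := h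
          exact absurd hx (hN l (hj.trans h2))
        · simpa using hε
    obtain ⟨j, hj⟩ := hnull _ ht (n + 2)
    exact hF j hj
  obtain ⟨ε, hε, ha⟩ := ha
  choose c hc using hb
  have hW := nhds_zero_mem (isCompact_below c) (half_pos hε)
  rw [mem_map]
  filter_upwards [hW] with f hf
  have hsum : ∀ L a, φ (∑ i ∈ Finset.range L, tail f (a + i) (c (a + i))) ∈ V (a + 1) := by
    intro L
    induction L with
    | zero => intro a; simpa using mem_of_mem_nhds (hVn _)
    | succ L ih =>
      intro a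
      rw [Finset.sum_range_succ', map_add]
      apply hVa
      · have := ih (a + 1)
        simpa only [add_assoc, add_comm 1] using this
      · exact hc _ f
  have hinf : |f inf| < ε / 2 := hf inf (Or.inl rfl)
  obtain ⟨δ, hδ, hcont⟩ := Metric.continuousAt_iff.1 (f.continuous.continuousAt (x := inf))
    (ε / 2) (half_pos hε)
  obtain ⟨N, hN⟩ := eventually_col δ hδ
  set s : C(Fan, ℝ) := ∑ i ∈ Finset.range N, tail f (0 + i) (c (0 + i)) with hs
  have hg : ∀ x, |(f - s) x| ≤ ε := by
    intro x
    rw [ContinuousMap.sub_apply, hs, ContinuousMap.coe_sum, Finset.sum_apply]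
    rcases cases_on x with rfl | ⟨m, l, rfl⟩
    · simp only [tail_inf, Finset.sum_const_zero, sub_zero]; linarith
    · simp only [tail_pt, zero_add]
      by_cases hm : m < N
      · rw [Finset.sum_eq_single m]
        · by_cases hl : c m ≤ l
          · simp [hl, hε.le]
          · have := hf (pt m l) (Or.inr ⟨m, l, not_le.1 hl, rfl⟩)
            simp only [hl, and_false, if_false, sub_zero]
            linarith
        · intro b _ hb
          simp [hb.symm]
        · intro h
          exact absurd (Finset.mem_range.2 hm) h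
      · rw [Finset.sum_eq_zero]
        · have h1 := hcont (hN m (not_lt.1 hm) l)
          rw [Real.dist_eq] at h1
          have h2 := abs_sub_abs_le_abs_sub (f (pt m l)) (f inf)
          rw [sub_zero]
          linarith
        · intro b hb
          have : m ≠ b := by
            rintro rfl
            exact hm (Finset.mem_range.1 hb)
          simp [this]
  have : φ f = φ (f - s) + φ s := by rw [← map_add, sub_add_cancel]
  show φ f ∈ U
  rw [this]
  exact hV0 (hVa 0 _ (ha _ hg) _ (hsum N 0))

theorem not_frechet : ¬ FrechetUrysohnSpace (Cc Fan) := by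
  intro hFU
  let g : ℕ → ℕ → C(Fan, ℝ) := fun n k =>
    ContinuousMap.const Fan (1 / ((n : ℝ) + 1)) + (tail 1 n k - tail 1 n (k + 1))
  have hg_inf : ∀ n k, g n k inf = 1 / ((n : ℝ) + 1) := by
    intro n k; simp [g, tail_inf]
  have hg_self : ∀ n k, g n k (pt n k) = 1 / ((n : ℝ) + 1) + 1 := by
    intro n k; simp [g, tail_pt]
  have hg_other : ∀ n k x, x ≠ pt n k → g n k x = 1 / ((n : ℝ) + 1) := by
    intro n k x hx
    rcases cases_on x with rfl | ⟨m, l, rfl⟩
    · exact hg_inf n k
    · simp only [g, ContinuousMap.add_apply, ContinuousMap.sub_apply, tail_pt,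
        ContinuousMap.const_apply, ContinuousMap.one_apply]
      by_cases hm : m = n
      · subst hm
        have hl : l ≠ k := by
          rintro rfl
          exact hx rfl
        by_cases h1 : k ≤ l
        · have h2 : k + 1 ≤ l := by omega
          simp [h1, h2]
        · have h2 : ¬ k + 1 ≤ l := by omega
          simp [h1, h2]
      · simp [hm]
  let A : Set C(Fan, ℝ) := {f | ∃ n k, f = g n k}
  have hcl : (0 : C(Fan, ℝ)) ∈ closure A := by
    rw [mem_closure_iff_nhds]
    intro t ht
    rw [mem_nhds_uniformity_iff_right, ContinuousMap.mem_compactConvergence_entourage_iff] at ht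
    obtain ⟨K, W, hK, hW, hsub⟩ := ht
    obtain ⟨ε, hε, hWε⟩ := Metric.mem_uniformity_dist.1 hW
    obtain ⟨n, hn⟩ := exists_nat_one_div_lt hε
    obtain ⟨N, hN⟩ := col_bdd hK n
    refine ⟨g n N, ?_, n, N, rfl⟩
    have : ((0 : C(Fan, ℝ)), g n N) ∈ {fg : C(Fan, ℝ) × C(Fan, ℝ) | ∀ x ∈ K, (fg.1 x, fg.2 x) ∈ W} := by
      intro x hx
      apply hWε
      have hne : x ≠ pt n N := by
        rintro rfl
        exact hN N le_rfl hx
      show dist (0 : ℝ) (g n N x) < ε
      rw [hg_other n N x hne, dist_zero_left, Real.norm_eq_abs, abs_of_pos (by positivity)]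
      exact hn
    exact hsub this rfl
  obtain ⟨F, hFA, hF⟩ := mem_closure_iff_seq_limit.1 hcl
  choose n k hnk using hFA
  rw [tendsto_zero_iff] at hF
  have hx : Tendsto (fun j => pt (n j) (k j)) atTop (𝓝 inf) := by
    rw [Metric.tendsto_nhds]
    intro ε hε
    filter_upwards [hF {inf} isCompact_singleton ε hε] with j hj
    have := hj inf rfl
    rw [hnk j, hg_inf, abs_of_pos (by positivity)] at this
    rwa [dist_inf, w_pt]
  obtain ⟨j, hj⟩ := (hF _ hx.isCompact_insert_range 1 one_pos).exists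
  have := hj (pt (n j) (k j)) (Or.inr ⟨j, rfl⟩)
  rw [hnk j, hg_self] at this
  have h2 : (0 : ℝ) < 1 / ((n j : ℝ) + 1) := by positivity
  rw [abs_of_pos (by linarith)] at this
  linarith

end Fan

end Pool.Agent.H793Z.SG
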