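import Mathlib
import Pool.Agent.H793Z.SGFan

set_option autoImplicit false

open Filter Topology Set

namespace Pool.Agent.H793Z.SG

universe v

section power

variable {ι : Type} [LinearOrder ι]

/-- every sequentially continuous homomorphism on an `ℵ₁`-power of `ℝ` is continuous -/
theorem power_continuous (hseg : ∀ b : ι, (Iic b).Countable) (hunc : Uncountable ι)
    {H : Type v} [AddGroup H] [TopologicalSpace H] [IsTopologicalAddGroup H]
    (φ : (ι → ℝ) →+ H) (hφ : SeqContinuous φ) : Continuous φ := by
  classical
  apply continuous_of_continuousAt_zero φ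
  intro U hU
  rw [map_zero] at hU
  obtain ⟨V, hV0, hVn, hVc, hVa⟩ := exists_chain hU
  have hnull : ∀ F : ℕ → ι → ℝ, Tendsto F atTop (𝓝 0) → ∀ m, ∃ j, φ (F j) ∈ V m := by
    intro F hF m
    have h1 := hφ hF
    rw [map_zero] at h1
    exact (h1.eventually (hVn m)).exists
  -- Step A: finitely supported elements
  have hA : ∀ m, ∃ F : Finset ι, ∃ ε > 0, ∀ (x : ι → ℝ) (S : Finset ι),
      (∀ i, i ∉ S → x i = 0) → (∀ i ∈ F, |x i| < ε) → φ x ∈ V m := by
    intro m
    by_contra hcon
    push Not at hcon
    have h1 : ∀ (F : Finset ι) (j : ℕ), ∃ (x : ι → ℝ) (S : Finset ι),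
        (∀ i, i ∉ S → x i = 0) ∧ (∀ i ∈ F, |x i| < 1 / ((j : ℝ) + 1)) ∧ φ x ∉ V m :=
      fun F j => hcon F _ (by positivity)
    choose X S hX1 hX2 hX3 using h1
    let G : ℕ → Finset ι := fun j => Nat.rec ∅ (fun j F => F ∪ S F j) j
    have hG : ∀ j, G (j + 1) = G j ∪ S (G j) j := fun j => rfl
    have hmono : Monotone G := monotone_nat_of_le_succ fun j => by
      rw [hG]; exact Finset.subset_union_left
    have ht : Tendsto (fun j => X (G j) j) atTop (𝓝 0) := by
      rw [tendsto_pi_nhds]
      intro i
      rcases Classical.em (∃ j, i ∈ G j) with hi | hi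
      · obtain ⟨j0, hj0⟩ := hi
        rw [Pi.zero_apply]
        apply squeeze_zero_norm' _ tendsto_one_div_add_atTop_nhds_zero_nat
        filter_upwards [eventually_ge_atTop j0] with j hj
        exact (hX2 _ j i (hmono hj hj0)).le
      · push Not at hi
        have : ∀ j, X (G j) j i = 0 := by
          intro j
          apply hX1
          intro h
          apply hi (j + 1)
          rw [hG]
          exact Finset.mem_union_right _ h
        simp only [this, Pi.zero_apply]
        exact tendsto_const_nhds
    obtain ⟨j, hj⟩ := hnull _ ht m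
    exact hX3 _ _ hj
  choose F ε hε hA using hA
  -- increasing unions
  have hlim : ∀ (x : ι → ℝ) (B : ℕ → Set ι), Monotone B → ∀ m,
      (∀ j, φ (indicator (B j) x) ∈ V m) → φ (indicator (⋃ j, B j) x) ∈ V m := by
    intro x B hB m h
    have ht : Tendsto (fun j => indicator (B j) x) atTop (𝓝 (indicator (⋃ j, B j) x)) := by
      rw [tendsto_pi_nhds]
      intro i
      by_cases hi : ∃ j, i ∈ B j
      · obtain ⟨j0, hj0⟩ := hi
        rw [indicator_of_mem (mem_iUnion.2 ⟨j0, hj0⟩)]
        apply tendsto_const_nhds.congr'
        filter_upwards [eventually_ge_atTop j0] with j hj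
        rw [indicator_of_mem (hB hj hj0)]
      · push Not at hi
        rw [indicator_of_notMem (by simpa using hi)]
        apply tendsto_const_nhds.congr
        intro j
        rw [indicator_of_notMem (hi j)]
    exact (hVc m).mem_of_tendsto (hφ ht) (Eventually.of_forall h)
  -- countably supported elements
  have hcount : ∀ (x : ι → ℝ) (C : Set ι), C.Countable → ∀ m, (∀ i ∈ F m, |x i| < ε m) →
      φ (indicator C x) ∈ V m := by
    intro x C hC m hx
    obtain ⟨e, he⟩ := Set.countable_iff_exists_injOn.1 hC
    have hfin : ∀ j : ℕ, {i ∈ C | e i < j}.Finite := by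
      intro j
      apply Set.Finite.of_finite_image (f := e) _ (he.mono fun i hi => hi.1)
      apply (Set.finite_lt_nat j).subset
      rintro _ ⟨i, hi, rfl⟩
      exact hi.2
    have hU : C = ⋃ j : ℕ, {i ∈ C | e i < j} := by
      ext i
      simp only [mem_iUnion, mem_ofPred_eq]
      exact ⟨fun h => ⟨e i + 1, h, Nat.lt_succ_self _⟩, fun ⟨_, h, _⟩ => h⟩
    rw [hU]
    apply hlim
    · intro a b hab i hi
      exact ⟨hi.1, hi.2.trans_le hab⟩
    · intro j
      apply hA m _ (hfin j).toFinset
      · intro i hi
        rw [Set.Finite.mem_toFinset] at hi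
        exact indicator_of_notMem hi _
      · intro i hi
        by_cases h : i ∈ {i ∈ C | e i < j}
        · rw [indicator_of_mem h]; exact hx i hi
        · rw [indicator_of_notMem h]; simpa using hε m
  -- elements vanishing on all the `F m`
  have hN : ∀ x : ι → ℝ, (∀ m, ∀ i ∈ F m, x i = 0) → ∀ m, φ x ∈ V m := by
    intro x hx
    let I : Set ι → Prop := fun A => ∀ B ⊆ A, ∀ m, φ (indicator B x) ∈ V m
    have hIc : ∀ A : Set ι, A.Countable → I A := by
      intro A hA B hB m
      apply hcount x B (hA.mono hB) m
      intro i hi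
      rw [hx m i hi]; simpa using hε m
    have hI2 : ∀ A A' : Set ι, I A → I A' → I (A ∪ A') := by
      intro A A' h h' B hB m
      have : indicator B x = indicator (B ∩ A) x + indicator (B \ A) x := by
        ext i
        by_cases h1 : i ∈ B <;> by_cases h2 : i ∈ A <;> simp [indicator, h1, h2]
      rw [this, map_add]
      apply hVa
      · exact h _ inter_subset_right _
      · apply h'
        intro i hi
        exact (hB hi.1).resolve_left hi.2
    have hIU : ∀ A : ℕ → Set ι, (∀ n, I (A n)) → I (⋃ n, A n) := by
      intro A hA B hB m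
      have hacc : ∀ j, I (accumulate A j) := by
        intro j
        induction j with
        | zero => simpa using hA 0
        | succ j ih => rw [accumulate_succ]; exact hI2 _ _ ih (hA _)
      have : B = ⋃ j, B ∩ accumulate A j := by
        rw [← inter_iUnion, iUnion_accumulate, inter_eq_left.2 hB]
      rw [this]
      apply hlim
      · intro a b hab
        exact inter_subset_inter_right _ (monotone_accumulate hab)
      · intro j
        exact hacc j _ inter_subset_right _
    have he : ∀ b : ι, ∃ e : ι → ℕ, InjOn e (Iic b) :=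
      fun b => Set.countable_iff_exists_injOn.1 (hseg b)
    choose e he using he
    have huniv : I univ := by
      by_contra hnot
      have h1 : ∀ a : ι, ∃ p : ℕ × ℕ, ∃ B ⊆ {b | a < b ∧ e b a = p.1},
          φ (indicator B x) ∉ V p.2 := by
        intro a
        by_contra hcon
        push Not at hcon
        apply hnot
        have h2 : (univ : Set ι) = Iic a ∪ ⋃ n : ℕ, {b | a < b ∧ e b a = n} := by
          ext b
          simp only [mem_univ, mem_union, mem_Iic, mem_iUnion, mem_ofPred_eq, true_iff]
          rcases le_or_gt b a with h | h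
          · exact Or.inl h
          · exact Or.inr ⟨_, h, rfl⟩
        rw [h2]
        apply hI2 _ _ (hIc _ (hseg a))
        apply hIU
        intro n B hB m
        exact hcon (n, m) B hB
      choose p B hB1 hB2 using h1
      obtain ⟨q, hq⟩ : ∃ q, (p ⁻¹' {q}).Infinite := by
        by_contra hcon
        push Not at hcon
        have : (univ : Set ι).Countable := by
          have h3 : (univ : Set ι) = ⋃ q, p ⁻¹' {q} := by
            ext a; simp
          rw [h3]
          exact countable_iUnion fun q => (hcon q).countable
        exact not_countable_iff.2 hunc (countable_univ_iff.1 this)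
      let a : ℕ ↪ ι := (hq.natEmbedding _).trans (Function.Embedding.subtype _)
      have ha : ∀ j, p (a j) = q := fun j => (hq.natEmbedding _ j).2
      have ht : Tendsto (fun j => indicator (B (a j)) x) atTop (𝓝 0) := by
        rw [tendsto_pi_nhds]
        intro i
        have hsub : {j | i ∈ B (a j)}.Subsingleton := by
          intro j hj j' hj'
          have h4 := hB1 _ hj
          have h5 := hB1 _ hj'
          apply a.injective
          apply he i h4.1.le h5.1.le
          rw [h4.2, h5.2, ha, ha]
        have hev : ∀ᶠ j in atTop, i ∉ B (a j) := by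
          rw [← Nat.cofinite_eq_atTop, eventually_cofinite]
          simpa using hsub.finite
        rw [Pi.zero_apply]
        apply tendsto_const_nhds.congr'
        filter_upwards [hev] with j hj
        rw [indicator_of_notMem hj]
      obtain ⟨j, hj⟩ := hnull _ ht q.2
      apply hB2 (a j)
      rwa [ha]
    intro m
    simpa using huniv univ subset_rfl m
  have hW : {x : ι → ℝ | ∀ i ∈ F 1, |x i| < ε 1} ∈ 𝓝 (0 : ι → ℝ) := by
    have : {x : ι → ℝ | ∀ i ∈ F 1, |x i| < ε 1} = ⋂ i ∈ F 1, {x : ι → ℝ | |x i| < ε 1} := by
      ext x; simp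
    rw [this, Filter.biInter_finset_mem]
    intro i _
    apply IsOpen.mem_nhds
    · exact isOpen_lt (by fun_prop) continuous_const
    · simpa using hε 1
  rw [mem_map]
  filter_upwards [hW] with x hx
  let C : Set ι := ⋃ m, (F m : Set ι)
  have hC : C.Countable := countable_iUnion fun m => (F m).countable_toSet
  have : x = indicator C x + indicator Cᶜ x := (indicator_self_add_compl C x).symm
  show φ x ∈ U
  rw [this, map_add]
  apply hV0
  apply hVa 0 _ (hcount x C hC 1 hx)
  apply hN
  intro m i hi
  apply indicator_of_notMem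
  intro h
  exact h (mem_iUnion.2 ⟨m, hi⟩)

end power

/-- the discrete space of cardinality `ℵ₁` -/
def D : Type := (Cardinal.aleph.{0} 1).ord.ToType

noncomputable instance : LinearOrder D :=
  inferInstanceAs (LinearOrder (Cardinal.aleph.{0} 1).ord.ToType)
instance : TopologicalSpace D := ⊥
instance : DiscreteTopology D := ⟨rfl⟩

theorem D_mk : Cardinal.mk D = Cardinal.aleph 1 := by
  show Cardinal.mk (Cardinal.aleph.{0} 1).ord.ToType = _
  simp

theorem D_unc : Uncountable D := by
  rw [← Cardinal.aleph0_lt_mk_iff, D_mk]
  exact Cardinal.aleph0_lt_aleph_one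

theorem D_seg (b : D) : (Iic b).Countable := by
  have h : (Iio b).Countable := by
    rw [← Cardinal.le_aleph0_iff_set_countable, ← Order.lt_succ_iff, Cardinal.succ_aleph0]
    exact Cardinal.mk_Iio_toType_ord_lt (c := Cardinal.aleph.{0} 1) b
  rw [← Iio_union_right]
  exact h.union (countable_singleton b)

theorem D_isSGroup : IsSGroup.{v} (Cp D) := by
  refine ⟨inferInstance, inferInstance, ?_⟩
  intro H _ _ _ _ φ hφ
  let e : (D → ℝ) →+ Cp D :=
    { toFun := fun x => ⟨x, (continuous_of_discreteTopology : Continuous x)⟩
      map_zero' := rfl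
      map_add' := fun _ _ => rfl }
  have he : Continuous e := Continuous.subtype_mk continuous_id _
  have h1 : Continuous (φ.comp e) :=
    power_continuous D_seg D_unc (φ.comp e) (fun _ _ h => hφ (he.seqContinuous h))
  have h2 : (φ : Cp D → H) = (φ.comp e) ∘ Subtype.val := rfl
  rw [h2]
  exact h1.comp continuous_subtype_val

theorem D_not_frechet : ¬ FrechetUrysohnSpace (Cp D) := by
  classical
  intro hFU
  let g : Finset D → Cp D := fun S =>
    ⟨fun i => if i ∈ S then 0 else 1, (continuous_of_discreteTopology : Continuous _)⟩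
  have ht : Tendsto g atTop (𝓝 0) := by
    rw [tendsto_subtype_rng, tendsto_pi_nhds]
    intro i
    apply tendsto_const_nhds.congr'
    filter_upwards [eventually_ge_atTop ({i} : Finset D)] with S hS
    have : i ∈ S := hS (Finset.mem_singleton_self i)
    simp [g, this]
  have hcl : (0 : Cp D) ∈ closure (range g) :=
    mem_closure_of_tendsto ht (Eventually.of_forall fun S => ⟨S, rfl⟩)
  obtain ⟨F, hFA, hF⟩ := mem_closure_iff_seq_limit.1 hcl
  choose S hS using hFA
  have hC : (⋃ j, (S j : Set D)).Countable := countable_iUnion fun j => (S j).countable_toSet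
  obtain ⟨i, hi⟩ : ∃ i, i ∉ ⋃ j, (S j : Set D) := by
    by_contra hcon
    push Not at hcon
    apply not_countable_iff.2 D_unc
    rw [← countable_univ_iff]
    exact hC.mono fun i _ => hcon i
  rw [tendsto_subtype_rng, tendsto_pi_nhds] at hF
  have h1 := hF i
  have h2 : ∀ j, (F j).1 i = 1 := by
    intro j
    have : i ∉ S j := fun h => hi (mem_iUnion.2 ⟨j, h⟩)
    rw [← hS j]
    simp [g, this]
  simp only [h2] at h1
  have := tendsto_nhds_unique h1 tendsto_const_nhds
  simp at this

end Pool.Agent.H793Z.SG
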